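import Pool.Agent.PWS.Ext
import Pool.Agent.DPT.Rho

/-!
PWS-CaseA. The number of triples of case (A).

For `(x, y, z) ∈ AA N` let `xy + 1 = w²`; then `w ≤ Nat.sqrt (Nat.sqrt N)`, `y ∣ w² - 1`, and `z` is an extension of `{x, y}`.
-/

set_option autoImplicit false

open Finset

namespace Pool.Agent.PWS

theorem AA_card {N D : ℕ} (hN : 1 ≤ N) (hD : TauB D N) :
    (AA N).card ≤ Nat.sqrt (Nat.sqrt N) * (D * (2 * D * (Nat.log 2 N + 2))) := by
  classical
  have hsub : AA N ⊆ (Icc 1 (Nat.sqrt (Nat.sqrt N))).biUnion (fun w =>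
      ((w * w - 1).divisors.filter (fun y => (w * w - 1) / y < y)).biUnion (fun y =>
        (EX ((w * w - 1) / y) y N).image (fun z => ((w * w - 1) / y, y, z)))) := by
    rintro ⟨x, y, z⟩ h
    unfold AA triples at h
    rw [mem_filter, mem_filter, mem_product, mem_product, mem_Icc, mem_Icc, mem_Icc] at h
    simp only at h
    obtain ⟨⟨⟨hx, hy, hz⟩, hxy, hyz, ⟨w, hw⟩, h2, h3⟩, h4⟩ := h
    have hxy1 : 1 ≤ x * y := Nat.mul_pos hx.1 hy.1
    have hw1 : 1 ≤ w := by
      rcases Nat.eq_zero_or_pos w with h0 | h0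
      · rw [h0] at hw
        omega
      · exact h0
    have hwd : w * w - 1 = x * y := by omega
    have hwy : (w * w - 1) / y = x := by
      rw [hwd]
      exact Nat.mul_div_cancel x (by omega)
    rw [mem_biUnion]
    refine ⟨w, ?_, ?_⟩
    · rw [mem_Icc]
      refine ⟨hw1, ?_⟩
      rw [Nat.le_sqrt, Nat.le_sqrt, ← hw]
      nlinarith
    · rw [mem_biUnion]
      refine ⟨y, ?_, ?_⟩
      · rw [mem_filter, Nat.mem_divisors]
        refine ⟨⟨?_, ?_⟩, ?_⟩
        · rw [hwd]
          exact dvd_mul_left y x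
        · omega
        · rw [hwy]
          exact hxy
      · rw [mem_image]
        refine ⟨z, ?_, ?_⟩
        · rw [hwy]
          unfold EX
          rw [mem_filter, mem_range]
          exact ⟨by omega, h2, h3⟩
        · rw [hwy]
  refine (card_le_card hsub).trans ?_
  have hcard : (Icc 1 (Nat.sqrt (Nat.sqrt N))).card = Nat.sqrt (Nat.sqrt N) := by
    rw [Nat.card_Icc, Nat.add_sub_cancel]
  have hmain : ∀ w ∈ Icc 1 (Nat.sqrt (Nat.sqrt N)),
      (((w * w - 1).divisors.filter (fun y => (w * w - 1) / y < y)).biUnion (fun y =>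
        (EX ((w * w - 1) / y) y N).image (fun z => ((w * w - 1) / y, y, z)))).card ≤
      D * (2 * D * (Nat.log 2 N + 2)) := by
    intro w hw
    rw [mem_Icc] at hw
    have hwN : w * w ≤ N := by
      have h1 : w * w ≤ Nat.sqrt N := Nat.le_sqrt.1 hw.2
      exact h1.trans (Nat.sqrt_le_self N)
    have hdc : ((w * w - 1).divisors.filter (fun y => (w * w - 1) / y < y)).card ≤ D := by
      refine (card_filter_le _ _).trans ?_
      rcases Nat.eq_zero_or_pos (w * w - 1) with h0 | h0
      · rw [h0]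
        simp
      · exact hD _ h0 (by omega)
    refine (card_biUnion_le_card_mul _ _ (2 * D * (Nat.log 2 N + 2)) ?_).trans
      (Nat.mul_le_mul_right _ hdc)
    intro y hy
    rw [mem_filter, Nat.mem_divisors] at hy
    obtain ⟨⟨hyd, hne⟩, hlt⟩ := hy
    refine card_image_le.trans ?_
    have hpos : 0 < w * w - 1 := Nat.pos_of_ne_zero hne
    have hyle : y ≤ w * w - 1 := Nat.le_of_dvd hpos hyd
    have hy0 : 0 < y := Nat.pos_of_dvd_of_pos hyd hpos
    have hx0 : 0 < (w * w - 1) / y := Nat.div_pos hyle hy0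
    have hmul : (w * w - 1) / y * y = w * w - 1 := Nat.div_mul_cancel hyd
    have hsq : IsSquare ((w * w - 1) / y * y + 1) := ⟨w, by rw [hmul]; omega⟩
    refine (ext_card hx0 hlt hsq N).trans (Nat.mul_le_mul_right _ ?_)
    have h1 := Pool.Agent.DPT.rho_le (a := y) hy0
    have h2 : y.divisors.card ≤ D := hD y hy0 (by omega)
    omega
  refine (card_biUnion_le_card_mul _ _ _ hmain).trans ?_
  rw [hcard]

end Pool.Agent.PWS
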