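import Pool.Agent.PWS.SDefs
import Pool.Agent.DPT.Defs

/-!
PROJECT PWS (MP_30ac48_nt, hand-in PowerSaving; architect helper87): internal definitions.

THEOREM: for every `ε > 0` the number of Diophantine triples `a < b < c ≤ N` with torsion `ℤ/2 × ℤ/6` is
`O(N^(3/11 + ε))`, while there are at least `N^(1/3) / 8` triples `a < b < c ≤ N` which are not regular.

PROOF. A triple with torsion `ℤ/2 × ℤ/6` is not regular (`NReg`), so `e = d₋(a, b, c) ≥ 1` (`Desc`) and
`c = d₊(a, b, e) > 4abe`. Let `{e, a, b} = {x < y < z}`.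
(A) If `{x, y, z}` is not regular, then `z > 4xy`, so `16 x² y² < N`; there are `O(N^(1/4 + ε))` of these.
(B) If `{x, y, z}` is regular, `xy + 1 = j²`, then `z = x + y + 2j`, `c = 4 j (j + x) (j + y)` and the triple
is `{x, y, c}`, `{x, z, c}` or `{y, z, c}`. The torsion gives `c (b - a) = m² p³ q` with `q < p`. Two of the
three pairwise coprime numbers `X₁ = j`, `X₂ = j + x`, `X₃ = j + y` are coprime to `b - a`; the primes which
divide one of these two exactly once divide `2q`, so `sp Xᵢ * sp Xₖ ≤ 2 q ≤ 2 (c (b-a))^(1/4)` and one of the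
numbers `sp Xᵢ * Xᵢ` is at most `(N / j)^(3/4)`. There are `O(T^(1/2 + ε))` integers `X` with `sp X * X ≤ T`, and
`Xᵢ` determines `(x, y, j)` up to `O(N^ε)` possibilities, because `x ∣ X₂² - 1` and so on.
-/

set_option autoImplicit false

open Finset

namespace Pool.Agent.PWS

open Pool.Agent.DPT (HasTorsion26)

/-- the product of the primes that divide `n` exactly once -/
def sp (n : ℕ) : ℕ := ∏ ℓ ∈ n.primeFactors.filter (fun ℓ => ¬ ℓ ^ 2 ∣ n), ℓ

/-- every prime divisor of `n` divides it at least twice (`n` is powerful) -/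
def Pow2 (n : ℕ) : Prop := ∀ ℓ : ℕ, ℓ.Prime → ℓ ∣ n → ℓ ^ 2 ∣ n

/-- `τ(n) ≤ D` for all `n ≤ N` -/
def TauB (D N : ℕ) : Prop := ∀ n : ℕ, 1 ≤ n → n ≤ N → n.divisors.card ≤ D

/-- the third element of the regular triple with `x, y`, `xy + 1 = j²` -/
def zz (x y j : ℕ) : ℕ := x + y + 2 * j

/-- `d₊(x, y, x + y + 2j)` -/
def cc (x y j : ℕ) : ℕ := 4 * (j * (j + x) * (j + y))

/-- one of the three triples coming from `(x, y, j)` has torsion `ℤ/2 × ℤ/6` -/
def BadE (x y j : ℕ) : Prop :=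
  HasTorsion26 x y (cc x y j) ∨ HasTorsion26 x (zz x y j) (cc x y j) ∨
    HasTorsion26 y (zz x y j) (cc x y j)

open Classical in
/-- case (B) -/
noncomputable def GG (N : ℕ) : Finset (ℕ × ℕ × ℕ) :=
  ((Icc 1 N) ×ˢ (Icc 1 N) ×ˢ (Icc 1 N)).filter fun t =>
    t.1 < t.2.1 ∧ t.1 * t.2.1 + 1 = t.2.2 ^ 2 ∧ cc t.1 t.2.1 t.2.2 ≤ N ∧ BadE t.1 t.2.1 t.2.2

open Classical in
/-- case (A) -/
noncomputable def AA (N : ℕ) : Finset (ℕ × ℕ × ℕ) :=
  (triples N).filter fun t => 16 * (t.1 * t.2.1) ^ 2 ≤ N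

open Classical in
/-- the integers `X ≤ T` with `sp X * X ≤ T` -/
noncomputable def SX (T : ℕ) : Finset ℕ := (Icc 1 T).filter fun X => sp X * X ≤ T

open Classical in
/-- the powerful numbers up to `T` -/
noncomputable def PP (T : ℕ) : Finset ℕ := (Icc 1 T).filter Pow2

open Classical in
/-- the extensions `z ≤ N` of the pair `{x, y}` (`z = 0` included) -/
noncomputable def EX (x y N : ℕ) : Finset ℕ :=
  (range (N + 1)).filter fun z => IsSquare (x * z + 1) ∧ IsSquare (y * z + 1)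

end Pool.Agent.PWS
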