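import Pool.Agent.PWS.Defs

/-!
PWS-Desc. The classical descent: a triple `a < b < c` which is not regular has the form
`c = d₊(a, b, e)` with `e ≥ 1`. `e := a + b + c + 2abc - 2rst`, `x := rs - at`, `y := rt - bs`.
-/

set_option autoImplicit false

namespace Pool.Agent.PWS

theorem desc {a b c r s t : ℕ} (ha : 0 < a) (hab : a < b) (hbc : b < c) (hr : a * b + 1 = r ^ 2)
    (hs : a * c + 1 = s ^ 2) (ht : b * c + 1 = t ^ 2) (hne : ¬ Regular a b c) :
    ∃ e x y : ℕ, 0 < e ∧ a * e + 1 = x ^ 2 ∧ b * e + 1 = y ^ 2 ∧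
      c = a + b + e + 2 * a * b * e + 2 * r * x * y := by
  have ha' : (1 : ℤ) ≤ a := by exact_mod_cast ha
  have hab' : (a : ℤ) + 1 ≤ b := by exact_mod_cast hab
  have hbc' : (b : ℤ) + 1 ≤ c := by exact_mod_cast hbc
  have hr' : (a : ℤ) * b + 1 = r ^ 2 := by exact_mod_cast hr
  have hs' : (a : ℤ) * c + 1 = s ^ 2 := by exact_mod_cast hs
  have ht' : (b : ℤ) * c + 1 = t ^ 2 := by exact_mod_cast ht
  obtain ⟨e, he⟩ : ∃ e : ℤ, e = a + b + c + 2 * a * b * c - 2 * r * s * t := ⟨_, rfl⟩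
  obtain ⟨f, hf⟩ : ∃ f : ℤ, f = a + b + c + 2 * a * b * c + 2 * r * s * t := ⟨_, rfl⟩
  have i1 : (a : ℤ) * e + 1 = (r * s - a * t) ^ 2 := by
    have h : ((r : ℤ) * s - a * t) ^ 2 = r ^ 2 * s ^ 2 - 2 * a * r * s * t + a ^ 2 * t ^ 2 := by ring
    rw [h, ← hr', ← hs', ← ht', he]
    ring
  have i2 : (b : ℤ) * e + 1 = (r * t - b * s) ^ 2 := by
    have h : ((r : ℤ) * t - b * s) ^ 2 = r ^ 2 * t ^ 2 - 2 * b * r * s * t + b ^ 2 * s ^ 2 := by ring
    rw [h, ← hr', ← hs', ← ht', he]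
    ring
  have i3 : (c : ℤ) = a + b + e + 2 * a * b * e + 2 * r * (r * s - a * t) * (r * t - b * s) := by
    have h : 2 * (r : ℤ) * (r * s - a * t) * (r * t - b * s) =
        r ^ 2 * (2 * (r * s * t)) - 2 * b * (r ^ 2 * s ^ 2) - 2 * a * (r ^ 2 * t ^ 2) +
          2 * a * b * (r * s * t) := by ring
    rw [h, ← hr', ← hs', ← ht', he]
    ring
  have i4 : e * f = ((c : ℤ) - a - b) ^ 2 - 4 * a * b - 4 := by
    have h : e * f = ((a : ℤ) + b + c + 2 * a * b * c) ^ 2 - 4 * (r ^ 2 * s ^ 2 * t ^ 2) := by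
      rw [he, hf]
      ring
    rw [h, ← hr', ← hs', ← ht']
    ring
  have he0 : 0 ≤ e := by
    by_contra hcon
    push Not at hcon
    have h1 : 0 ≤ (a : ℤ) * e + 1 := by rw [i1]; exact sq_nonneg _
    have h2 : 0 ≤ (b : ℤ) * e + 1 := by rw [i2]; exact sq_nonneg _
    nlinarith
  have he1 : e ≠ 0 := by
    intro h
    apply hne
    rw [h, zero_mul] at i4
    unfold Regular
    linarith
  have hx0 : 0 < (r : ℤ) * s - a * t := by
    by_contra hcon
    push Not at hcon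
    have h1 : ((r : ℤ) * s) ^ 2 ≤ (a * t) ^ 2 := pow_le_pow_left₀ (by positivity) (by linarith) 2
    rw [mul_pow, mul_pow, ← hr', ← hs', ← ht'] at h1
    have h2 : 0 < (a : ℤ) * (b - a) := mul_pos (by linarith) (by linarith)
    have h3 : 0 ≤ (a : ℤ) * c := by positivity
    nlinarith
  have hy0 : 0 < (r : ℤ) * t - b * s := by
    by_contra hcon
    push Not at hcon
    have h1 : ((r : ℤ) * t) ^ 2 ≤ (b * s) ^ 2 := pow_le_pow_left₀ (by positivity) (by linarith) 2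
    rw [mul_pow, mul_pow, ← hr', ← hs', ← ht'] at h1
    have h2 : 0 < (b : ℤ) * (c - b) := mul_pos (by linarith) (by linarith)
    have h3 : 0 ≤ (a : ℤ) * b := by positivity
    nlinarith
  obtain ⟨n, hn⟩ := Int.eq_ofNat_of_zero_le he0
  obtain ⟨x, hx⟩ := Int.eq_ofNat_of_zero_le hx0.le
  obtain ⟨y, hy⟩ := Int.eq_ofNat_of_zero_le hy0.le
  rw [hx, hn] at i1
  rw [hy, hn] at i2
  rw [hx, hy, hn] at i3
  refine ⟨n, x, y, ?_, ?_, ?_, ?_⟩
  · rcases Nat.eq_zero_or_pos n with h | h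
    · rw [h] at hn
      exact absurd hn (by simpa using he1)
    · exact h
  · exact_mod_cast i1
  · exact_mod_cast i2
  · exact_mod_cast i3

end Pool.Agent.PWS
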