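import Pool.Agent.PWS.Defs

/-!
PWS-Ext. The number of extensions `z ≤ N` of a Diophantine pair `{x, y}`.

`z < y`: `z` is determined by `t`, `t² = yz + 1`, `t < y`. `z ≥ y`: `z` is determined by
`e = x + y + z + 2xyz - 2rst ≤ z / 2`, another extension. Strong induction.
-/

set_option autoImplicit false

open Finset

namespace Pool.Agent.PWS

open Pool.Agent.DPT (rho SQ1)

private lemma Ext_rho_pos {y : ℕ} (hy : 2 ≤ y) : 1 ≤ rho y := by
  classical
  unfold rho
  rw [Nat.one_le_iff_ne_zero, ← Nat.pos_iff_ne_zero, card_pos]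
  refine ⟨1, ?_⟩
  rw [mem_filter, mem_range]
  refine ⟨by omega, ?_⟩
  unfold SQ1
  simp

private lemma Ext_small {x y : ℕ} (hy : 2 ≤ y) (N : ℕ) :
    ((EX x y N).filter (fun z => z < y)).card ≤ rho y := by
  classical
  unfold rho
  refine card_le_card_of_injOn (fun z => Nat.sqrt (y * z + 1)) ?_ ?_
  · intro z hz
    rw [mem_coe, mem_filter] at hz
    obtain ⟨hz, hzy⟩ := hz
    unfold EX at hz
    rw [mem_filter] at hz
    obtain ⟨-, -, ⟨t, ht⟩⟩ := hz
    have hs : Nat.sqrt (y * z + 1) = t := by rw [ht, Nat.sqrt_eq]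
    simp only [coe_filter, Set.mem_setOf_eq, mem_range]
    rw [hs]
    refine ⟨?_, ?_⟩
    · by_contra hcon
      push Not at hcon
      have h1 : y * y ≤ t * t := Nat.mul_le_mul hcon hcon
      have h2 : y * z ≤ y * (y - 1) := Nat.mul_le_mul_left _ (by omega)
      have h3 : y * (y - 1) + y = y * y := by
        obtain ⟨w, rfl⟩ : ∃ w, y = w + 1 := ⟨y - 1, by omega⟩
        rw [Nat.add_sub_cancel]
        ring
      omega
    · unfold SQ1
      refine ⟨(z : ℤ), ?_⟩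
      have h : ((y : ℤ) * z + 1) = t * t := by exact_mod_cast ht
      rw [sq, ← h]
      ring
  · intro a ha b hb hab
    rw [mem_coe, mem_filter] at ha hb
    obtain ⟨ha, -⟩ := ha
    obtain ⟨hb, -⟩ := hb
    unfold EX at ha hb
    rw [mem_filter] at ha hb
    obtain ⟨-, -, ⟨t, ht⟩⟩ := ha
    obtain ⟨-, -, ⟨t', ht'⟩⟩ := hb
    have hs : Nat.sqrt (y * a + 1) = t := by rw [ht, Nat.sqrt_eq]
    have hs' : Nat.sqrt (y * b + 1) = t' := by rw [ht', Nat.sqrt_eq]
    have hab' : Nat.sqrt (y * a + 1) = Nat.sqrt (y * b + 1) := hab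
    rw [hs, hs'] at hab'
    rw [hab', ← ht'] at ht
    have h1 : y * a = y * b := by omega
    exact Nat.eq_of_mul_eq_mul_left (by omega) h1

/-- the data of the descent -/
private lemma Ext_desc {x y z r s t : ℤ} (hx : 1 ≤ x) (hxy : x + 1 ≤ y) (hyz : y ≤ z)
    (hr0 : 0 ≤ r) (hs0 : 0 ≤ s) (ht0 : 0 ≤ t)
    (hr : x * y + 1 = r ^ 2) (hs : x * z + 1 = s ^ 2) (ht : y * z + 1 = t ^ 2) (e : ℤ)
    (he : e = x + y + z + 2 * x * y * z - 2 * r * s * t) :
    0 ≤ e ∧ 2 * e ≤ z ∧ x * e + 1 = (r * s - x * t) ^ 2 ∧ y * e + 1 = (r * t - y * s) ^ 2 ∧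
      0 ≤ r * s - x * t ∧ 0 ≤ r * t - y * s ∧
      z = x + y + e + 2 * x * y * e + 2 * r * ((r * s - x * t) * (r * t - y * s)) := by
  have i1 : x * e + 1 = (r * s - x * t) ^ 2 := by
    have h : (r * s - x * t) ^ 2 = r ^ 2 * s ^ 2 - 2 * x * r * s * t + x ^ 2 * t ^ 2 := by ring
    rw [h, ← hr, ← hs, ← ht, he]
    ring
  have i2 : y * e + 1 = (r * t - y * s) ^ 2 := by
    have h : (r * t - y * s) ^ 2 = r ^ 2 * t ^ 2 - 2 * y * r * s * t + y ^ 2 * s ^ 2 := by ring
    rw [h, ← hr, ← hs, ← ht, he]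
    ring
  have he0 : 0 ≤ e := by
    by_contra hcon
    push Not at hcon
    have h1 : 0 ≤ x * e + 1 := by rw [i1]; exact sq_nonneg _
    have h2 : 0 ≤ y * e + 1 := by rw [i2]; exact sq_nonneg _
    nlinarith
  obtain ⟨f, hf⟩ : ∃ f : ℤ, f = x + y + z + 2 * x * y * z + 2 * r * s * t := ⟨_, rfl⟩
  have i4 : e * f = (z - x - y) ^ 2 - 4 * x * y - 4 := by
    have h : e * f = (x + y + z + 2 * x * y * z) ^ 2 - 4 * (r ^ 2 * s ^ 2 * t ^ 2) := by
      rw [he, hf]
      ring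
    rw [h, ← hr, ← hs, ← ht]
    ring
  have hrst : 0 ≤ 2 * r * s * t := by positivity
  have hxy2 : 2 ≤ x * y := by nlinarith
  have hz : 2 ≤ z := by linarith
  have hf5 : 4 * z ≤ f := by
    have h1 : 2 * z ≤ x * y * z := by nlinarith
    rw [hf]
    nlinarith
  refine ⟨he0, ?_, i1, i2, ?_, ?_, ?_⟩
  · by_contra hcon
    push Not at hcon
    have h1 : (z + 1) * (4 * z) ≤ (2 * e) * f :=
      mul_le_mul (by linarith) hf5 (by linarith) (by linarith)
    have h2 : (2 * e) * f = 2 * (e * f) := by ring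
    rw [h2, i4] at h1
    have h3 : (z - x - y) ^ 2 ≤ z ^ 2 := by
      have h4 : z ^ 2 - (z - x - y) ^ 2 = (x + y) * ((z - x) + (z - y)) := by ring
      have h5 : 0 ≤ (x + y) * ((z - x) + (z - y)) := mul_nonneg (by linarith) (by linarith)
      linarith
    nlinarith
  · have h1 : (x * t) ^ 2 ≤ (r * s) ^ 2 := by
      have h2 : (r * s) ^ 2 = r ^ 2 * s ^ 2 := by ring
      have h3 : (x * t) ^ 2 = x ^ 2 * t ^ 2 := by ring
      rw [h2, h3, ← hr, ← hs, ← ht]
      nlinarith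
    have h2 : x * t ≤ r * s := abs_le_of_sq_le_sq' h1 (by positivity) |>.2
    linarith
  · have h1 : (y * s) ^ 2 ≤ (r * t) ^ 2 := by
      have h2 : (r * t) ^ 2 = r ^ 2 * t ^ 2 := by ring
      have h3 : (y * s) ^ 2 = y ^ 2 * s ^ 2 := by ring
      rw [h2, h3, ← hr, ← hs, ← ht]
      nlinarith
    have h2 : y * s ≤ r * t := abs_le_of_sq_le_sq' h1 (by positivity) |>.2
    linarith
  · have h : (r * s - x * t) * (r * t - y * s) =
        r ^ 2 * (s * t) - r * y * s ^ 2 - r * x * t ^ 2 + x * y * (s * t) := by ring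
    rw [h, ← hs, ← ht, ← hr]
    have h2 : 2 * r * ((x * y + 1) * (s * t) - r * y * (x * z + 1) - r * x * (y * z + 1) +
        x * y * (s * t)) = (2 * x * y + 1) * (2 * r * s * t) -
          2 * r ^ 2 * (2 * x * y * z + x + y) := by ring
    rw [h2, ← hr, he]
    ring

private lemma Ext_sq_unique {a b : ℤ} (ha : 0 ≤ a) (hb : 0 ≤ b) (h : a ^ 2 = b ^ 2) : a = b := by
  rcases sq_eq_sq_iff_eq_or_eq_neg.1 h with h | h
  · exact h
  · linarith

private lemma Ext_isSquare {n : ℕ} {u : ℤ} (h : (n : ℤ) = u ^ 2) : IsSquare n := by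
  refine ⟨u.natAbs, ?_⟩
  have h4 : ((u.natAbs * u.natAbs : ℕ) : ℤ) = (n : ℤ) := by
    rw [h]
    push_cast
    rw [sq]
    exact abs_mul_abs_self _
  exact_mod_cast h4.symm

private lemma Ext_large {x y : ℕ} (hx : 0 < x) (hxy : x < y) (h : IsSquare (x * y + 1)) (N : ℕ) :
    ((EX x y N).filter (fun z => ¬ z < y)).card ≤ (EX x y (N / 2)).card := by
  classical
  obtain ⟨r, hr⟩ := h
  have hr' : (x : ℤ) * y + 1 = (r : ℤ) ^ 2 := by
    rw [sq]
    exact_mod_cast hr
  have hx' : (1 : ℤ) ≤ x := by exact_mod_cast hx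
  have hxy' : (x : ℤ) + 1 ≤ y := by exact_mod_cast hxy
  set E : ℕ → ℤ := fun z => (x : ℤ) + y + z + 2 * x * y * z -
    2 * r * (Nat.sqrt (x * z + 1) : ℕ) * (Nat.sqrt (y * z + 1) : ℕ) with hE
  have key : ∀ z : ℕ, z ∈ (EX x y N).filter (fun z => ¬ z < y) →
      z ≤ N ∧ 0 ≤ E z ∧ 2 * E z ≤ z ∧ ∃ u v : ℤ, 0 ≤ u ∧ 0 ≤ v ∧ x * E z + 1 = u ^ 2 ∧ y * E z + 1 = v ^ 2 ∧
        (z : ℤ) = x + y + E z + 2 * x * y * E z + 2 * r * (u * v) := by
    intro z hz
    rw [mem_filter] at hz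
    obtain ⟨hz, hzy⟩ := hz
    unfold EX at hz
    rw [mem_filter, mem_range] at hz
    obtain ⟨hzN, ⟨s, hs⟩, ⟨t, ht⟩⟩ := hz
    have e1 : Nat.sqrt (x * z + 1) = s := by rw [hs, Nat.sqrt_eq]
    have e2 : Nat.sqrt (y * z + 1) = t := by rw [ht, Nat.sqrt_eq]
    have hyz : (y : ℤ) ≤ z := by
      push Not at hzy
      exact_mod_cast hzy
    have hs' : (x : ℤ) * z + 1 = (s : ℤ) ^ 2 := by
      rw [sq]
      exact_mod_cast hs
    have ht' : (y : ℤ) * z + 1 = (t : ℤ) ^ 2 := by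
      rw [sq]
      exact_mod_cast ht
    have hEz : E z = (x : ℤ) + y + z + 2 * x * y * z - 2 * r * s * t := by
      rw [hE]
      simp only [e1, e2]
    obtain ⟨a1, a2, a3, a4, a5, a6, a7⟩ := Ext_desc hx' hxy' hyz (Int.natCast_nonneg r)
      (Int.natCast_nonneg s) (Int.natCast_nonneg t) hr' hs' ht' (E z) hEz
    exact ⟨by omega, a1, a2, _, _, a5, a6, a3, a4, a7⟩
  refine card_le_card_of_injOn (fun z => (E z).toNat) ?_ ?_
  · intro z hz
    obtain ⟨h1, h2, h3, u, v, hu, hv, h4, h5, -⟩ := key z hz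
    obtain ⟨n, hn⟩ := Int.eq_ofNat_of_zero_le h2
    have hn' : (E z).toNat = n := by rw [hn]; simp
    simp only [mem_coe]
    rw [hn']
    unfold EX
    rw [mem_filter, mem_range]
    rw [hn] at h3 h4 h5
    refine ⟨?_, Ext_isSquare (u := u) ?_, Ext_isSquare (u := v) ?_⟩
    · have h6 : 2 * n ≤ z := by exact_mod_cast h3
      omega
    · rw [← h4]
      push_cast
      ring
    · rw [← h5]
      push_cast
      ring
  · intro a ha b hb hab
    obtain ⟨-, h2, -, u, v, hu, hv, h4, h5, h6⟩ := key a ha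
    obtain ⟨-, k2, -, u', v', hu', hv', k4, k5, k6⟩ := key b hb
    have hab' : (E a).toNat = (E b).toNat := hab
    have hEq : E a = E b := by
      rw [← Int.toNat_of_nonneg h2, ← Int.toNat_of_nonneg k2, hab']
    rw [← hEq] at k4 k5 k6
    have e1 : u = u' := Ext_sq_unique hu hu' (by rw [← h4, ← k4])
    have e2 : v = v' := Ext_sq_unique hv hv' (by rw [← h5, ← k5])
    rw [e1, e2, ← k6] at h6
    exact_mod_cast h6

private lemma Ext_step {x y : ℕ} (hx : 0 < x) (hxy : x < y) (h : IsSquare (x * y + 1)) (N : ℕ) :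
    (EX x y N).card ≤ rho y + (EX x y (N / 2)).card := by
  rw [← card_filter_add_card_filter_not (s := EX x y N) (fun z => z < y)]
  exact Nat.add_le_add (Ext_small (by omega) N) (Ext_large hx hxy h N)

private lemma Ext_zero (x y : ℕ) : (EX x y 0).card ≤ 1 := by
  unfold EX
  refine (card_filter_le _ _).trans ?_
  simp

theorem ext_card {x y : ℕ} (hx : 0 < x) (hxy : x < y) (h : IsSquare (x * y + 1)) (N : ℕ) :
    (EX x y N).card ≤ rho y * (Nat.log 2 N + 2) := by
  have hrho := Ext_rho_pos (y := y) (by omega)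
  induction N using Nat.strong_induction_on with
  | _ N ih =>
    rcases Nat.lt_or_ge N 2 with hN | hN
    · have h1 : N / 2 = 0 := by omega
      have h2 := Ext_step hx hxy h N
      rw [h1] at h2
      have h3 := Ext_zero x y
      have h4 : rho y * 2 ≤ rho y * (Nat.log 2 N + 2) := Nat.mul_le_mul_left _ (by omega)
      omega
    · have h1 := Ext_step hx hxy h N
      have h2 := ih (N / 2) (by omega)
      have h3 : Nat.log 2 N = Nat.log 2 (N / 2) + 1 := by
        rw [Nat.log_of_one_lt_of_le (by norm_num) hN]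
      rw [h3]
      calc (EX x y N).card ≤ rho y + (EX x y (N / 2)).card := h1
        _ ≤ rho y + rho y * (Nat.log 2 (N / 2) + 2) := Nat.add_le_add_left h2 _
        _ = rho y * (Nat.log 2 (N / 2) + 1 + 2) := by ring

end Pool.Agent.PWS
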