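import Pool.Agent.PWS.Defs

/-!
PWS-Fib. `X ∈ {j, j + x, j + y}` determines `(x, y, j)` up to at most `τ(X² - 1)` possibilities: `x` (or `y`) divides `X² - 1` and determines the
other numbers.
-/

set_option autoImplicit false

open Finset

namespace Pool.Agent.PWS

private theorem Fib_eq {t t' : ℕ × ℕ × ℕ} (h1 : 0 < t.1) (he : t.1 = t'.1) (hj : t.2.2 = t'.2.2)
    (h3 : t.1 * t.2.1 + 1 = t.2.2 ^ 2) (h3' : t'.1 * t'.2.1 + 1 = t'.2.2 ^ 2) : t = t' := by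
  have h5 : t.1 * t.2.1 = t.1 * t'.2.1 := by
    have h6 : t.1 * t.2.1 + 1 = t.1 * t'.2.1 + 1 := by rw [h3, hj, ← h3', he]
    exact Nat.add_right_cancel h6
  have h7 : t.2.1 = t'.2.1 := Nat.eq_of_mul_eq_mul_left h1 h5
  exact Prod.ext he (Prod.ext h7 hj)

theorem fib1 (X : ℕ) (S : Finset (ℕ × ℕ × ℕ))
    (hS : ∀ t ∈ S, 0 < t.1 ∧ t.1 < t.2.1 ∧ t.1 * t.2.1 + 1 = t.2.2 ^ 2 ∧ t.2.2 = X) :
    S.card ≤ (X ^ 2 - 1).divisors.card := by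
  refine Finset.card_le_card_of_injOn (fun t => t.1) ?_ ?_
  · intro t ht
    obtain ⟨h1, h2, h3, h4⟩ := hS t ht
    have h5 : X ^ 2 - 1 = t.1 * t.2.1 := by rw [← h4, ← h3, Nat.add_sub_cancel]
    have h6 : 0 < t.1 * t.2.1 := Nat.mul_pos h1 (h1.trans h2)
    exact Nat.mem_divisors.mpr ⟨by rw [h5]; exact Dvd.intro _ rfl, by rw [h5]; exact h6.ne'⟩
  · intro t ht t' ht' he
    obtain ⟨h1, h2, h3, h4⟩ := hS t ht
    obtain ⟨h1', h2', h3', h4'⟩ := hS t' ht'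
    have he' : t.1 = t'.1 := he
    have hj : t.2.2 = t'.2.2 := h4.trans h4'.symm
    exact Fib_eq h1 he' hj h3 h3'

theorem fib2 (X : ℕ) (S : Finset (ℕ × ℕ × ℕ))
    (hS : ∀ t ∈ S, 0 < t.1 ∧ t.1 < t.2.1 ∧ t.1 * t.2.1 + 1 = t.2.2 ^ 2 ∧ t.2.2 + t.1 = X) :
    S.card ≤ (X ^ 2 - 1).divisors.card := by
  refine Finset.card_le_card_of_injOn (fun t => t.1) ?_ ?_
  · intro t ht
    obtain ⟨h1, h2, h3, h4⟩ := hS t ht
    have h5 : X ^ 2 - 1 = t.1 * (t.2.1 + 2 * t.2.2 + t.1) := by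
      have h6 : X ^ 2 = t.1 * (t.2.1 + 2 * t.2.2 + t.1) + 1 := by
        rw [← h4]
        linear_combination -h3
      rw [h6, Nat.add_sub_cancel]
    have h6 : 0 < t.1 * (t.2.1 + 2 * t.2.2 + t.1) := Nat.mul_pos h1 (by omega)
    exact Nat.mem_divisors.mpr ⟨by rw [h5]; exact Dvd.intro _ rfl, by rw [h5]; exact h6.ne'⟩
  · intro t ht t' ht' he
    obtain ⟨h1, h2, h3, h4⟩ := hS t ht
    obtain ⟨h1', h2', h3', h4'⟩ := hS t' ht'
    have he' : t.1 = t'.1 := he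
    have hj : t.2.2 = t'.2.2 := by omega
    exact Fib_eq h1 he' hj h3 h3'

theorem fib3 (X : ℕ) (S : Finset (ℕ × ℕ × ℕ))
    (hS : ∀ t ∈ S, 0 < t.1 ∧ t.1 < t.2.1 ∧ t.1 * t.2.1 + 1 = t.2.2 ^ 2 ∧ t.2.2 + t.2.1 = X) :
    S.card ≤ (X ^ 2 - 1).divisors.card := by
  refine Finset.card_le_card_of_injOn (fun t => t.2.1) ?_ ?_
  · intro t ht
    obtain ⟨h1, h2, h3, h4⟩ := hS t ht
    have h5 : X ^ 2 - 1 = t.2.1 * (t.1 + 2 * t.2.2 + t.2.1) := by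
      have h6 : X ^ 2 = t.2.1 * (t.1 + 2 * t.2.2 + t.2.1) + 1 := by
        rw [← h4]
        linear_combination -h3
      rw [h6, Nat.add_sub_cancel]
    have h6 : 0 < t.2.1 * (t.1 + 2 * t.2.2 + t.2.1) := Nat.mul_pos (h1.trans h2) (by omega)
    exact Nat.mem_divisors.mpr ⟨by rw [h5]; exact Dvd.intro _ rfl, by rw [h5]; exact h6.ne'⟩
  · intro t ht t' ht' he
    obtain ⟨h1, h2, h3, h4⟩ := hS t ht
    obtain ⟨h1', h2', h3', h4'⟩ := hS t' ht'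
    have he' : t.2.1 = t'.2.1 := he
    have hj : t.2.2 = t'.2.2 := by omega
    have h5 : t.1 * t.2.1 = t'.1 * t.2.1 := by
      have h6 : t.1 * t.2.1 + 1 = t'.1 * t.2.1 + 1 := by rw [h3, hj, ← h3', he']
      exact Nat.add_right_cancel h6
    have h7 : t.1 = t'.1 := Nat.eq_of_mul_eq_mul_right (h1.trans h2) h5
    exact Prod.ext h7 (Prod.ext he' hj)

end Pool.Agent.PWS
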