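import Pool.Agent.PWS.Defs

/-!
PWS-FinA. Real analysis for the assembly.

With `D ≤ D³ ≤ K₁ (N²)^(ε/8) = K₁ N^(ε/4)` (or `D = 0`) we have `D² ≤ D³ ≤ K₁ N^(ε/4)`;
`Nat.log 2 N + 2 ≤ C N^(ε/4)` (`Nat.log 2 N ≤ Real.log N / Real.log 2`, `Real.log_le_rpow_div`);
`Nat.sqrt (Nat.sqrt N) ≤ N^(1/4) ≤ N^(3/11)`; `M ≤ N^(3/11) + 1 ≤ 2 N^(3/11)`; `√T ≤ N^(3/11)`.
-/

set_option autoImplicit false

namespace Pool.Agent.PWS

private lemma FinA_root (N : ℕ) (hN : 1 ≤ N) : ∃ x : ℝ, 1 ≤ x ∧ x ^ 11 = N ∧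
    (N : ℝ) ^ (3 / 11 : ℝ) = x ^ 3 := by
  have hNr : (1 : ℝ) ≤ N := by exact_mod_cast hN
  refine ⟨(N : ℝ) ^ (1 / 11 : ℝ), Real.one_le_rpow hNr (by norm_num), ?_, ?_⟩
  · rw [← Real.rpow_natCast, ← Real.rpow_mul (by linarith)]
    norm_num
  · rw [← Real.rpow_natCast, ← Real.rpow_mul (by linarith)]
    norm_num

/-- choice of `M` and `T` -/
theorem choose_MT (N : ℕ) (hN : 1 ≤ N) : ∃ M T : ℕ, (M : ℝ) ≤ 2 * (N : ℝ) ^ (3 / 11 : ℝ) ∧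
    T ≤ N ∧ Real.sqrt T ≤ (N : ℝ) ^ (3 / 11 : ℝ) ∧
    ∀ P : ℕ, P ^ 4 * M ^ 3 ≤ N ^ 3 → P ≤ T := by
  obtain ⟨x, hx1, hx, hx3⟩ := FinA_root N hN
  have hx0 : 0 < x := by linarith
  have h3 : 1 ≤ x ^ 3 := one_le_pow₀ hx1
  refine ⟨⌈x ^ 3⌉₊, ⌊x ^ 6⌋₊, ?_, ?_, ?_, ?_⟩
  · rw [hx3]
    have h := Nat.ceil_lt_add_one (a := x ^ 3) (by positivity)
    linarith
  · have h1 : ((⌊x ^ 6⌋₊ : ℕ) : ℝ) ≤ x ^ 6 := Nat.floor_le (by positivity)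
    have h2 : x ^ 6 ≤ x ^ 11 := pow_le_pow_right₀ hx1 (by norm_num)
    have h4 : ((⌊x ^ 6⌋₊ : ℕ) : ℝ) ≤ (N : ℝ) := by rw [← hx]; linarith
    exact_mod_cast h4
  · rw [hx3]
    have h1 : ((⌊x ^ 6⌋₊ : ℕ) : ℝ) ≤ x ^ 6 := Nat.floor_le (by positivity)
    have h2 : x ^ 6 = (x ^ 3) ^ 2 := by ring
    calc Real.sqrt ((⌊x ^ 6⌋₊ : ℕ) : ℝ) ≤ Real.sqrt ((x ^ 3) ^ 2) := by
          apply Real.sqrt_le_sqrt
          rw [← h2]
          exact h1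
      _ = x ^ 3 := Real.sqrt_sq (by positivity)
  · intro P hP
    apply Nat.le_floor
    have hM : x ^ 3 ≤ ((⌈x ^ 3⌉₊ : ℕ) : ℝ) := Nat.le_ceil _
    have h1 : (P : ℝ) ^ 4 * ((⌈x ^ 3⌉₊ : ℕ) : ℝ) ^ 3 ≤ (N : ℝ) ^ 3 := by exact_mod_cast hP
    have h2 : (x ^ 3) ^ 3 ≤ ((⌈x ^ 3⌉₊ : ℕ) : ℝ) ^ 3 := pow_le_pow_left₀ (by positivity) hM 3
    have h4 : (P : ℝ) ^ 4 * (x ^ 3) ^ 3 ≤ (x ^ 11) ^ 3 := by
      rw [hx]
      exact (mul_le_mul_of_nonneg_left h2 (by positivity)).trans h1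
    have h5 : (P : ℝ) ^ 4 ≤ (x ^ 6) ^ 4 := by
      have h6 : (x ^ 11) ^ 3 = (x ^ 6) ^ 4 * (x ^ 3) ^ 3 := by ring
      rw [h6] at h4
      exact le_of_mul_le_mul_right h4 (by positivity)
    exact le_of_pow_le_pow_left₀ (by norm_num) (by positivity) h5

theorem final {ε : ℝ} (hε : 0 < ε) {K₁ : ℝ} (hK₁ : 1 ≤ K₁) : ∃ K : ℝ, ∀ N D M T : ℕ, 1 ≤ N →
    (D : ℝ) ^ 3 ≤ K₁ * ((N ^ 2 : ℕ) : ℝ) ^ (ε / 8) → (M : ℝ) ≤ 2 * (N : ℝ) ^ (3 / 11 : ℝ) →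
    Real.sqrt T ≤ (N : ℝ) ^ (3 / 11 : ℝ) →
    3 * ((Nat.sqrt (Nat.sqrt N) : ℝ) * (D * (2 * D * (Nat.log 2 N + 2)))) +
      3 * ((M : ℝ) * D + 3 * (3 * Real.sqrt T * D * D)) ≤ K * (N : ℝ) ^ (3 / 11 + ε) := by
  obtain ⟨C, hC⟩ : ∃ C : ℝ, C = 1 / Real.log 2 * (4 / ε) + 2 := ⟨_, rfl⟩
  have hlog2 : 0 < Real.log 2 := Real.log_pos (by norm_num)
  have hC0 : 0 ≤ C := by rw [hC]; positivity
  refine ⟨6 * K₁ * C + 33 * K₁, ?_⟩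
  intro N D M T hN hD hM hT
  have hNr : (1 : ℝ) ≤ N := by exact_mod_cast hN
  have hN0 : (0 : ℝ) < N := by linarith
  obtain ⟨x, hx1, hx, hx3⟩ := FinA_root N hN
  have hx0 : 0 < x := by linarith
  obtain ⟨A, hA⟩ : ∃ A : ℝ, A = (N : ℝ) ^ (3 / 11 : ℝ) := ⟨_, rfl⟩
  obtain ⟨y, hy⟩ : ∃ y : ℝ, y = (N : ℝ) ^ (ε / 4) := ⟨_, rfl⟩
  have hy1 : 1 ≤ y := by rw [hy]; exact Real.one_le_rpow hNr (by positivity)
  have hA0 : 0 < A := by rw [hA]; positivity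
  have hD3 : (D : ℝ) ^ 3 ≤ K₁ * y := by
    have h1 : ((N ^ 2 : ℕ) : ℝ) ^ (ε / 8) = y := by
      rw [hy]
      push_cast
      rw [← Real.rpow_natCast, ← Real.rpow_mul hN0.le]
      congr 1
      push_cast
      ring
    rwa [h1] at hD
  have hDnn : (0 : ℝ) ≤ D := Nat.cast_nonneg D
  have hD12 : (D : ℝ) ≤ K₁ * y ∧ (D : ℝ) * D ≤ K₁ * y := by
    rcases Nat.eq_zero_or_pos D with h0 | h0
    · rw [h0]
      simp only [Nat.cast_zero, mul_zero]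
      exact ⟨by positivity, by positivity⟩
    · have h1 : (1 : ℝ) ≤ D := by exact_mod_cast h0
      have h2 : (D : ℝ) ≤ D * D := by nlinarith
      have h4 : (D : ℝ) * D ≤ D ^ 3 := by nlinarith [mul_nonneg hDnn hDnn]
      exact ⟨by linarith, by linarith⟩
  have hs : ((Nat.sqrt (Nat.sqrt N) : ℕ) : ℝ) ≤ A := by
    obtain ⟨s, hs⟩ : ∃ s : ℕ, s = Nat.sqrt (Nat.sqrt N) := ⟨_, rfl⟩
    rw [← hs]
    have h1 : s ^ 2 ≤ Nat.sqrt N := by rw [hs]; exact Nat.sqrt_le' _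
    have h2 : (Nat.sqrt N) ^ 2 ≤ N := Nat.sqrt_le' _
    have h4 : s ^ 4 ≤ N := by
      calc s ^ 4 = (s ^ 2) ^ 2 := by ring
        _ ≤ (Nat.sqrt N) ^ 2 := Nat.pow_le_pow_left h1 2
        _ ≤ N := h2
    have h5 : (s : ℝ) ^ 4 ≤ N := by exact_mod_cast h4
    have h6 : (s : ℝ) ^ 4 ≤ (x ^ 3) ^ 4 := by
      calc (s : ℝ) ^ 4 ≤ x ^ 11 := by rw [hx]; exact h5
        _ ≤ x ^ 12 := pow_le_pow_right₀ hx1 (by norm_num)
        _ = (x ^ 3) ^ 4 := by ring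
    rw [hA, hx3]
    exact le_of_pow_le_pow_left₀ (by norm_num) (by positivity) h6
  have hL : ((Nat.log 2 N : ℕ) : ℝ) + 2 ≤ C * y := by
    have h1 : ((Nat.log 2 N : ℕ) : ℝ) ≤ Real.log N / Real.log 2 := by
      rw [le_div_iff₀ hlog2]
      have h2 : (2 : ℕ) ^ Nat.log 2 N ≤ N := Nat.pow_log_le_self 2 (by omega)
      have h4 : ((2 : ℝ)) ^ (Nat.log 2 N) ≤ N := by exact_mod_cast h2
      have h5 := Real.log_le_log (by positivity) h4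
      rwa [Real.log_pow] at h5
    have h2 : Real.log N ≤ y / (ε / 4) := by
      rw [hy]
      exact Real.log_le_rpow_div hN0.le (by positivity)
    have h4 : Real.log N / Real.log 2 ≤ (y / (ε / 4)) / Real.log 2 :=
      div_le_div_of_nonneg_right h2 hlog2.le
    have h5 : (y / (ε / 4)) / Real.log 2 = 1 / Real.log 2 * (4 / ε) * y := by
      field_simp
    rw [hC]
    have h6 : (1 / Real.log 2 * (4 / ε) + 2) * y = 1 / Real.log 2 * (4 / ε) * y + 2 * y := by ring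
    rw [h6]
    linarith
  have hM' : (M : ℝ) ≤ 2 * A := by rw [hA]; exact hM
  have hT' : Real.sqrt T ≤ A := by rw [hA]; exact hT
  have hK0 : (0 : ℝ) ≤ K₁ := by linarith
  have hT0 : 0 ≤ Real.sqrt (T : ℝ) := Real.sqrt_nonneg _
  have t1 : ((Nat.sqrt (Nat.sqrt N) : ℕ) : ℝ) * (D * (2 * D * (((Nat.log 2 N : ℕ) : ℝ) + 2))) ≤
      A * (2 * (K₁ * y) * (C * y)) := by
    apply mul_le_mul hs _ (by positivity) hA0.le
    have h1 : (D : ℝ) * (2 * D * (((Nat.log 2 N : ℕ) : ℝ) + 2)) =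
        2 * (D * D) * (((Nat.log 2 N : ℕ) : ℝ) + 2) := by ring
    rw [h1]
    apply mul_le_mul _ hL (by positivity) (by positivity)
    linarith [hD12.2]
  have t2 : (M : ℝ) * D ≤ 2 * A * (K₁ * y) :=
    mul_le_mul hM' hD12.1 hDnn (by positivity)
  have t3 : 3 * Real.sqrt T * D * D ≤ 3 * A * (K₁ * y) := by
    have h1 : 3 * Real.sqrt T * D * D = 3 * Real.sqrt T * (D * D) := by ring
    rw [h1]
    exact mul_le_mul (by linarith) hD12.2 (by positivity) (by positivity)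
  have hy2 : A * (y * y) ≤ (N : ℝ) ^ (3 / 11 + ε) := by
    rw [Real.rpow_add hN0, ← hA]
    apply mul_le_mul_of_nonneg_left _ hA0.le
    rw [hy, ← Real.rpow_add hN0]
    exact Real.rpow_le_rpow_of_exponent_le hNr (by linarith)
  have hyy : y ≤ y * y := by nlinarith
  calc 3 * (((Nat.sqrt (Nat.sqrt N) : ℕ) : ℝ) * (D * (2 * D * (((Nat.log 2 N : ℕ) : ℝ) + 2)))) +
      3 * ((M : ℝ) * D + 3 * (3 * Real.sqrt T * D * D))
      ≤ 3 * (A * (2 * (K₁ * y) * (C * y))) + 3 * (2 * A * (K₁ * y) + 3 * (3 * A * (K₁ * y))) := by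
        linarith
    _ = 6 * K₁ * C * (A * (y * y)) + 33 * K₁ * (A * y) := by ring
    _ ≤ 6 * K₁ * C * (A * (y * y)) + 33 * K₁ * (A * (y * y)) := by
        have h1 : A * y ≤ A * (y * y) := mul_le_mul_of_nonneg_left hyy hA0.le
        have h2 : 33 * K₁ * (A * y) ≤ 33 * K₁ * (A * (y * y)) :=
          mul_le_mul_of_nonneg_left h1 (by positivity)
        linarith
    _ = (6 * K₁ * C + 33 * K₁) * (A * (y * y)) := by ring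
    _ ≤ (6 * K₁ * C + 33 * K₁) * (N : ℝ) ^ (3 / 11 + ε) :=
        mul_le_mul_of_nonneg_left hy2 (by positivity)

end Pool.Agent.PWS
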