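import Pool.Agent.PWS.Pow

/-!
PWS-SXc. The number of `X` with `sp X * X ≤ T`.

`n = sp X * X` is powerful, `n ≤ T`, and `X` is a divisor of `n`; so the number is at most the number of powerful
numbers up to `T` times the maximal number of divisors.
-/

set_option autoImplicit false

open Finset

namespace Pool.Agent.PWS

private lemma SXc_pos (X : ℕ) : 1 ≤ sp X := by
  unfold sp
  refine Nat.one_le_iff_ne_zero.2 (Finset.prod_ne_zero_iff.2 ?_)
  intro ℓ hℓ
  rw [mem_filter] at hℓ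
  exact (Nat.prime_of_mem_primeFactors hℓ.1).ne_zero

private lemma SXc_pow {X : ℕ} (hX : 1 ≤ X) : Pow2 (sp X * X) := by
  intro ℓ hℓ hd
  have hX' : ℓ ∣ X := by
    rcases (Nat.Prime.dvd_mul hℓ).1 hd with h | h
    · unfold sp at h
      obtain ⟨q, hq, hdq⟩ := (hℓ.prime.dvd_finsetProd_iff _).1 h
      rw [mem_filter] at hq
      exact hdq.trans (Nat.dvd_of_mem_primeFactors hq.1)
    · exact h
  by_cases h2 : ℓ ^ 2 ∣ X
  · exact dvd_mul_of_dvd_right h2 _
  · have h3 : ℓ ∣ sp X := by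
      unfold sp
      apply Finset.dvd_prod_of_mem
      rw [mem_filter]
      exact ⟨Nat.mem_primeFactors.2 ⟨hℓ, hX', by omega⟩, h2⟩
    rw [sq]
    exact mul_dvd_mul h3 hX'

theorem sx_card {T D : ℕ} (hD : TauB D T) : (SX T).card ≤ (PP T).card * D := by
  classical
  have hsub : SX T ⊆ (PP T).biUnion Nat.divisors := by
    intro X hX
    unfold SX at hX
    rw [mem_filter, mem_Icc] at hX
    obtain ⟨⟨h1, _⟩, h3⟩ := hX
    have h4 : 1 ≤ sp X * X := Nat.mul_pos (SXc_pos X) h1
    rw [mem_biUnion]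
    refine ⟨sp X * X, ?_, ?_⟩
    · unfold PP
      rw [mem_filter, mem_Icc]
      exact ⟨⟨h4, h3⟩, SXc_pow h1⟩
    · rw [Nat.mem_divisors]
      exact ⟨dvd_mul_left _ _, by omega⟩
  refine (card_le_card hsub).trans (card_biUnion_le_card_mul _ _ _ ?_)
  intro n hn
  unfold PP at hn
  rw [mem_filter, mem_Icc] at hn
  exact hD n hn.1.1 hn.1.2

end Pool.Agent.PWS
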