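import Pool.Agent.PWS.Tri
import Pool.Agent.PWS.SXc
import Pool.Agent.PWS.Fib

/-!
PWS-GCard. The number of triples of case (B): cover `GG N` by the fibres of `j ≤ M` and by the fibres of
`j`, `j + x`, `j + y` over `SX T`.
-/

set_option autoImplicit false

open Finset

namespace Pool.Agent.PWS

private theorem GCard_tau {N D X : ℕ} (hD : TauB D (N ^ 2)) (hX : X ≤ N) :
    (X ^ 2 - 1).divisors.card ≤ D := by
  rcases Nat.lt_or_ge X 2 with h | h
  · have h1 : X ^ 2 - 1 = 0 := by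
      interval_cases X <;> rfl
    rw [h1]
    simp
  · have h1 : 2 ^ 2 ≤ X ^ 2 := Nat.pow_le_pow_left h 2
    have h2 : X ^ 2 ≤ N ^ 2 := Nat.pow_le_pow_left hX 2
    exact hD _ (by omega) (by omega)

private theorem GCard_sp (X : ℕ) : 0 < sp X := by
  unfold sp
  refine Finset.prod_pos fun l hl => ?_
  exact (Nat.prime_of_mem_primeFactors (Finset.mem_filter.1 hl).1).pos

private theorem GCard_mem {T X : ℕ} (hX : 0 < X) (h : sp X * X ≤ T) : X ∈ SX T := by
  unfold SX
  rw [Finset.mem_filter, Finset.mem_Icc]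
  refine ⟨⟨hX, le_trans ?_ h⟩, h⟩
  exact Nat.le_mul_of_pos_left X (GCard_sp X)

theorem GG_card {N M T D : ℕ} (hD : TauB D (N ^ 2)) (hTN : T ≤ N)
    (hT : ∀ P : ℕ, P ^ 4 * M ^ 3 ≤ N ^ 3 → P ≤ T) :
    (GG N).card ≤ M * D + 3 * ((SX T).card * D) := by
  classical
  have hmem : ∀ t ∈ GG N, (0 < t.1 ∧ t.1 < t.2.1 ∧ t.1 * t.2.1 + 1 = t.2.2 ^ 2) ∧ 0 < t.2.2 ∧ t.2.2 ≤ N ∧
      cc t.1 t.2.1 t.2.2 ≤ N ∧ BadE t.1 t.2.1 t.2.2 := by
    intro t ht
    unfold GG at ht
    rw [Finset.mem_filter] at ht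
    obtain ⟨h1, h2, h3, h4, h5⟩ := ht
    simp only [Finset.mem_product, Finset.mem_Icc] at h1
    exact ⟨⟨h1.1.1, h2, h3⟩, h1.2.2.1, h1.2.2.2, h4, h5⟩
  set A1 := (Icc 1 M).biUnion fun X => (GG N).filter fun t => t.2.2 = X with hA1
  set A2 := (SX T).biUnion fun X => (GG N).filter fun t => t.2.2 = X with hA2
  set A3 := (SX T).biUnion fun X => (GG N).filter fun t => t.2.2 + t.1 = X with hA3
  set A4 := (SX T).biUnion fun X => (GG N).filter fun t => t.2.2 + t.2.1 = X with hA4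
  have hSX : ∀ X ∈ SX T, X ≤ N := by
    intro X hX
    unfold SX at hX
    rw [Finset.mem_filter, Finset.mem_Icc] at hX
    exact hX.1.2.trans hTN
  have hcov : GG N ⊆ A1 ∪ (A2 ∪ (A3 ∪ A4)) := by
    intro t ht
    obtain ⟨⟨h1, h2, h3⟩, h4, h5, h6, h7⟩ := hmem t ht
    rcases Nat.lt_or_ge M t.2.2 with hM | hM
    · have key : ∀ P : ℕ, P ^ 4 * t.2.2 ^ 3 ≤ N ^ 3 → P ≤ T := by
        intro P hP
        refine hT P (le_trans ?_ hP)
        exact Nat.mul_le_mul_left _ (Nat.pow_le_pow_left hM.le 3)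
      rcases tri h1 h2 h3 h6 h7 with h | h | h
      · refine mem_union_right _ (mem_union_left _ ?_)
        rw [hA2, mem_biUnion]
        exact ⟨t.2.2, GCard_mem h4 (key _ h), mem_filter.2 ⟨ht, rfl⟩⟩
      · refine mem_union_right _ (mem_union_right _ (mem_union_left _ ?_))
        rw [hA3, mem_biUnion]
        exact ⟨t.2.2 + t.1, GCard_mem (by omega) (key _ h), mem_filter.2 ⟨ht, rfl⟩⟩
      · refine mem_union_right _ (mem_union_right _ (mem_union_right _ ?_))
        rw [hA4, mem_biUnion]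
        exact ⟨t.2.2 + t.2.1, GCard_mem (by omega) (key _ h), mem_filter.2 ⟨ht, rfl⟩⟩
    · refine mem_union_left _ ?_
      rw [hA1, mem_biUnion]
      exact ⟨t.2.2, mem_Icc.2 ⟨h4, hM⟩, mem_filter.2 ⟨ht, rfl⟩⟩
  have c1 : A1.card ≤ M * D := by
    have h := card_biUnion_le_card_mul (Icc 1 M) (fun X => (GG N).filter fun t => t.2.2 = X) D (by
      intro X _
      rcases ((GG N).filter fun t => t.2.2 = X).eq_empty_or_nonempty with h0 | ⟨t, ht⟩
      · rw [h0]
        simp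
      · have hXN : X ≤ N := by
          rw [mem_filter] at ht
          rw [← ht.2]
          exact (hmem t ht.1).2.2.1
        refine (fib1 X _ fun t ht => ?_).trans (GCard_tau hD hXN)
        rw [mem_filter] at ht
        obtain ⟨h1, h2, h3⟩ := (hmem t ht.1).1
        exact ⟨h1, h2, h3, ht.2⟩)
    simpa using h
  have c2 : A2.card ≤ (SX T).card * D := by
    refine card_biUnion_le_card_mul _ _ D fun X hX => ?_
    refine (fib1 X _ fun t ht => ?_).trans (GCard_tau hD (hSX X hX))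
    rw [mem_filter] at ht
    obtain ⟨h1, h2, h3⟩ := (hmem t ht.1).1
    exact ⟨h1, h2, h3, ht.2⟩
  have c3 : A3.card ≤ (SX T).card * D := by
    refine card_biUnion_le_card_mul _ _ D fun X hX => ?_
    refine (fib2 X _ fun t ht => ?_).trans (GCard_tau hD (hSX X hX))
    rw [mem_filter] at ht
    obtain ⟨h1, h2, h3⟩ := (hmem t ht.1).1
    exact ⟨h1, h2, h3, ht.2⟩
  have c4 : A4.card ≤ (SX T).card * D := by
    refine card_biUnion_le_card_mul _ _ D fun X hX => ?_
    refine (fib3 X _ fun t ht => ?_).trans (GCard_tau hD (hSX X hX))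
    rw [mem_filter] at ht
    obtain ⟨h1, h2, h3⟩ := (hmem t ht.1).1
    exact ⟨h1, h2, h3, ht.2⟩
  have h1 := card_le_card hcov
  have h2 := card_union_le A1 (A2 ∪ (A3 ∪ A4))
  have h3 := card_union_le A2 (A3 ∪ A4)
  have h4 := card_union_le A3 A4
  omega

end Pool.Agent.PWS
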