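import Pool.Agent.PWS.TriC
import Pool.Agent.PWS.Fib

/-!
PWS-GCardC. The number of triples of case (B). (Compare PWS/GCard.lean.)

PLAN. Split `GG N` into `j ≤ M` and `j > M`.
* `j ≤ M`: `S = ⋃_{j ∈ [1, M]}` of fibres, each of size at most `τ(j² - 1) ≤ D` (`fib1`; `j ≤ N`; for `j = 1` the fibre is
  empty), so at most `M * D`.
* `j > M`: by `triC` there are `w ≥ 1` and `X ∈ {j, j+x, j+y}` with `X ∣ w³` and `w³ M ≤ w³ j ≤ N`, so `w ≤ U` (`hU`), `w³ ≤ N`. Three times the sum over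
  `w ∈ [1, U]` with `w³ ≤ N` and over the divisors `X` of `w³` (at most `D`) of the fibre, at most `τ(X² - 1) ≤ D`
  (`X ≤ N`, `X ≥ 2` if the fibre is not empty; use `fib1`, `fib2`, `fib3`).
-/

set_option autoImplicit false

open Finset

namespace Pool.Agent.PWS

private theorem GCardC_tau {N D X : ℕ} (hD : TauB D (N ^ 2)) (hX : X ≤ N) :
    (X ^ 2 - 1).divisors.card ≤ D := by
  rcases Nat.lt_or_ge X 2 with h | h
  · have h1 : X ^ 2 - 1 = 0 := by
      interval_cases X <;> rfl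
    rw [h1]
    simp
  · have h1 : 2 ^ 2 ≤ X ^ 2 := Nat.pow_le_pow_left h 2
    have h2 : X ^ 2 ≤ N ^ 2 := Nat.pow_le_pow_left hX 2
    exact hD _ (by omega) (by omega)

theorem GG_cardC {N M U D : ℕ} (hD : TauB D (N ^ 2)) (hU : ∀ w : ℕ, w ^ 3 * M ≤ N → w ≤ U) :
    (GG N).card ≤ M * D + 3 * (U * (D * D)) := by
  classical
  have hmem : ∀ t ∈ GG N, (0 < t.1 ∧ t.1 < t.2.1 ∧ t.1 * t.2.1 + 1 = t.2.2 ^ 2) ∧ 0 < t.2.2 ∧ t.2.2 ≤ N ∧
      cc t.1 t.2.1 t.2.2 ≤ N ∧ BadE t.1 t.2.1 t.2.2 := by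
    intro t ht
    unfold GG at ht
    rw [Finset.mem_filter] at ht
    obtain ⟨h1, h2, h3, h4, h5⟩ := ht
    simp only [Finset.mem_product, Finset.mem_Icc] at h1
    exact ⟨⟨h1.1.1, h2, h3⟩, h1.2.2.1, h1.2.2.2, h4, h5⟩
  have hNN : N ≤ N ^ 2 := by nlinarith [sq_nonneg (N : ℤ), Nat.le_self_pow (two_ne_zero) N]
  set W := (Icc 1 U).filter fun w => w ^ 3 ≤ N with hW
  set I := W.biUnion fun w => (w ^ 3).divisors with hI
  have hIc : I.card ≤ U * D := by
    have h := card_biUnion_le_card_mul W (fun w => (w ^ 3).divisors) D (by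
      intro w hw
      rw [hW, mem_filter, mem_Icc] at hw
      exact hD _ (Nat.pos_of_ne_zero (pow_ne_zero 3 (by omega))) (hw.2.trans hNN))
    have h2 : W.card ≤ U := by
      have h3 := card_filter_le (Icc 1 U) fun w => w ^ 3 ≤ N
      simpa using h3
    exact h.trans (Nat.mul_le_mul_right D h2)
  have hIN : ∀ X ∈ I, X ≤ N := by
    intro X hX
    rw [hI, mem_biUnion] at hX
    obtain ⟨w, hw, hXw⟩ := hX
    rw [hW, mem_filter] at hw
    exact (Nat.divisor_le hXw).trans hw.2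
  have hIm : ∀ w X j : ℕ, 0 < w → M < j → w ^ 3 * j ≤ N → X ∣ w ^ 3 → X ∈ I := by
    intro w X j hw hMj hj hX
    have h1 : w ≤ U := hU w ((Nat.mul_le_mul_left _ hMj.le).trans hj)
    have h2 : w ^ 3 ≤ N := (Nat.le_mul_of_pos_right _ (by omega)).trans hj
    rw [hI, mem_biUnion]
    refine ⟨w, ?_, Nat.mem_divisors.2 ⟨hX, pow_ne_zero 3 hw.ne'⟩⟩
    rw [hW, mem_filter, mem_Icc]
    exact ⟨⟨hw, h1⟩, h2⟩
  set A1 := (Icc 1 M).biUnion fun X => (GG N).filter fun t => t.2.2 = X with hA1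
  set A2 := I.biUnion fun X => (GG N).filter fun t => t.2.2 = X with hA2
  set A3 := I.biUnion fun X => (GG N).filter fun t => t.2.2 + t.1 = X with hA3
  set A4 := I.biUnion fun X => (GG N).filter fun t => t.2.2 + t.2.1 = X with hA4
  have hcov : GG N ⊆ A1 ∪ (A2 ∪ (A3 ∪ A4)) := by
    intro t ht
    obtain ⟨⟨h1, h2, h3⟩, h4, h5, h6, h7⟩ := hmem t ht
    rcases Nat.lt_or_ge M t.2.2 with hM | hM
    · obtain ⟨w, hw, hwj, h⟩ := triC h1 h2 h3 h6 h7
      rcases h with h | h | h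
      · refine mem_union_right _ (mem_union_left _ ?_)
        rw [hA2, mem_biUnion]
        exact ⟨t.2.2, hIm w _ _ hw hM hwj h, mem_filter.2 ⟨ht, rfl⟩⟩
      · refine mem_union_right _ (mem_union_right _ (mem_union_left _ ?_))
        rw [hA3, mem_biUnion]
        exact ⟨t.2.2 + t.1, hIm w _ _ hw hM hwj h, mem_filter.2 ⟨ht, rfl⟩⟩
      · refine mem_union_right _ (mem_union_right _ (mem_union_right _ ?_))
        rw [hA4, mem_biUnion]
        exact ⟨t.2.2 + t.2.1, hIm w _ _ hw hM hwj h, mem_filter.2 ⟨ht, rfl⟩⟩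
    · refine mem_union_left _ ?_
      rw [hA1, mem_biUnion]
      exact ⟨t.2.2, mem_Icc.2 ⟨h4, hM⟩, mem_filter.2 ⟨ht, rfl⟩⟩
  have c1 : A1.card ≤ M * D := by
    have h := card_biUnion_le_card_mul (Icc 1 M) (fun X => (GG N).filter fun t => t.2.2 = X) D (by
      intro X _
      rcases ((GG N).filter fun t => t.2.2 = X).eq_empty_or_nonempty with h0 | ⟨t, ht⟩
      · rw [h0]
        simp
      · have hXN : X ≤ N := by
          rw [mem_filter] at ht
          rw [← ht.2]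
          exact (hmem t ht.1).2.2.1
        refine (fib1 X _ fun t ht => ?_).trans (GCardC_tau hD hXN)
        rw [mem_filter] at ht
        obtain ⟨h1, h2, h3⟩ := (hmem t ht.1).1
        exact ⟨h1, h2, h3, ht.2⟩)
    simpa using h
  have hmul : I.card * D ≤ U * (D * D) := by
    rw [← mul_assoc]
    exact Nat.mul_le_mul_right D hIc
  have c2 : A2.card ≤ I.card * D := by
    refine card_biUnion_le_card_mul _ _ D fun X hX => ?_
    refine (fib1 X _ fun t ht => ?_).trans (GCardC_tau hD (hIN X hX))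
    rw [mem_filter] at ht
    obtain ⟨h1, h2, h3⟩ := (hmem t ht.1).1
    exact ⟨h1, h2, h3, ht.2⟩
  have c3 : A3.card ≤ I.card * D := by
    refine card_biUnion_le_card_mul _ _ D fun X hX => ?_
    refine (fib2 X _ fun t ht => ?_).trans (GCardC_tau hD (hIN X hX))
    rw [mem_filter] at ht
    obtain ⟨h1, h2, h3⟩ := (hmem t ht.1).1
    exact ⟨h1, h2, h3, ht.2⟩
  have c4 : A4.card ≤ I.card * D := by
    refine card_biUnion_le_card_mul _ _ D fun X hX => ?_
    refine (fib3 X _ fun t ht => ?_).trans (GCardC_tau hD (hIN X hX))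
    rw [mem_filter] at ht
    obtain ⟨h1, h2, h3⟩ := (hmem t ht.1).1
    exact ⟨h1, h2, h3, ht.2⟩
  have h1 := card_le_card hcov
  have h2 := card_union_le A1 (A2 ∪ (A3 ∪ A4))
  have h3 := card_union_le A2 (A3 ∪ A4)
  have h4 := card_union_le A3 A4
  omega

end Pool.Agent.PWS
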