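import Pool.Agent.PWS.Defs

/-!
PWS-KeyA. Primes which divide `A` or `B` exactly once divide `2q`.

An odd prime `ℓ` which divides `A` exactly once divides `4ABCE = m² p³ q` exactly once, so it divides neither `m` nor
`p`, and it divides `q`. The same holds for `B`, and `sp A`, `sp B` are coprime products of distinct primes.
-/

set_option autoImplicit false

namespace Pool.Agent.PWS

theorem sp_pos (n : ℕ) : 0 < sp n := by
  unfold sp
  refine Finset.prod_pos fun ℓ hℓ => ?_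
  exact (Nat.prime_of_mem_primeFactors (Finset.mem_filter.1 hℓ).1).pos

theorem sp_dvd_self {n : ℕ} : sp n ∣ n := by
  unfold sp
  refine Finset.prod_primes_dvd n ?_ ?_
  · intro ℓ hℓ
    exact (Nat.prime_of_mem_primeFactors (Finset.mem_filter.1 hℓ).1).prime
  · intro ℓ hℓ
    exact Nat.dvd_of_mem_primeFactors (Finset.mem_filter.1 hℓ).1

private theorem KeyA_prime {A D m p q ℓ : ℕ} (hAD : A.Coprime D)
    (h : 4 * (A * D) = m ^ 2 * (p ^ 3 * q)) (hℓ : ℓ.Prime) (h1 : ℓ ∣ A) (h2 : ¬ ℓ ^ 2 ∣ A) :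
    ℓ ∣ 2 * q := by
  rcases eq_or_ne ℓ 2 with rfl | hne
  · exact Dvd.intro _ rfl
  have h4 : ℓ.Coprime 4 := by
    have h5 : ℓ.Coprime 2 := (Nat.coprime_primes hℓ Nat.prime_two).2 hne
    exact (Nat.Coprime.pow_right 2 h5 : ℓ.Coprime (2 ^ 2))
  have hD : ℓ.Coprime D := Nat.Coprime.coprime_dvd_left h1 hAD
  have h4D : (ℓ ^ 2).Coprime (4 * D) := Nat.Coprime.pow_left 2 (Nat.Coprime.mul_right h4 hD)
  have hsq : ¬ ℓ ^ 2 ∣ m ^ 2 * (p ^ 3 * q) := by
    intro h6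
    apply h2
    rw [← h, show 4 * (A * D) = (4 * D) * A by ring] at h6
    exact h4D.dvd_of_dvd_mul_left h6
  have hm : ¬ ℓ ∣ m := fun h7 => hsq (Dvd.dvd.mul_right (pow_dvd_pow_of_dvd h7 2) _)
  have hp : ¬ ℓ ∣ p := by
    intro h7
    apply hsq
    refine Dvd.dvd.mul_left (Dvd.dvd.mul_right ?_ _) _
    exact (pow_dvd_pow_of_dvd h7 2).trans (pow_dvd_pow p (by norm_num))
  have h8 : ℓ ∣ m ^ 2 * (p ^ 3 * q) := by
    rw [← h]
    exact Dvd.dvd.mul_left (Dvd.dvd.mul_right h1 _) _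
  rcases (Nat.Prime.dvd_mul hℓ).1 h8 with h9 | h9
  · exact absurd (hℓ.dvd_of_dvd_pow h9) hm
  · rcases (Nat.Prime.dvd_mul hℓ).1 h9 with h10 | h10
    · exact absurd (hℓ.dvd_of_dvd_pow h10) hp
    · exact Dvd.dvd.mul_left h10 2

private theorem KeyA_sp {A D m p q : ℕ} (hAD : A.Coprime D)
    (h : 4 * (A * D) = m ^ 2 * (p ^ 3 * q)) : sp A ∣ 2 * q := by
  unfold sp
  refine Finset.prod_primes_dvd _ ?_ ?_
  · intro ℓ hℓ
    exact (Nat.prime_of_mem_primeFactors (Finset.mem_filter.1 hℓ).1).prime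
  · intro ℓ hℓ
    have h1 := Finset.mem_filter.1 hℓ
    exact KeyA_prime hAD h (Nat.prime_of_mem_primeFactors h1.1) (Nat.dvd_of_mem_primeFactors h1.1)
      h1.2

theorem sp_dvd {A B C E m p q : ℕ} (hA : 0 < A) (hB : 0 < B) (hAB : A.Coprime B)
    (hAC : A.Coprime C) (hAE : A.Coprime E) (hBC : B.Coprime C) (hBE : B.Coprime E)
    (h : 4 * (A * B * C * E) = m ^ 2 * (p ^ 3 * q)) : sp A * sp B ∣ 2 * q := by
  refine Nat.Coprime.mul_dvd_of_dvd_of_dvd ?_ ?_ ?_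
  · exact Nat.Coprime.coprime_dvd_left sp_dvd_self (Nat.Coprime.coprime_dvd_right sp_dvd_self hAB)
  · refine KeyA_sp (D := B * C * E) (m := m) (p := p)
      (Nat.Coprime.mul_right (Nat.Coprime.mul_right hAB hAC) hAE) ?_
    rw [← h]; ring
  · refine KeyA_sp (D := A * C * E) (m := m) (p := p)
      (Nat.Coprime.mul_right (Nat.Coprime.mul_right hAB.symm hBC) hBE) ?_
    rw [← h]; ring

end Pool.Agent.PWS
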