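import Pool.Agent.PWS.KeyA

/-!
PWS-KeyB. The size inequality.

PLAN. `sA = sp A`, `sB = sp B`. `sA sB ≤ 2q` (`sp_dvd`), `q⁴ ≤ m² p³ q = 4ABCE` (`q ≤ p`, `m ≥ 1`) so
`(sA sB)⁴ ≤ 16 q⁴ ≤ 16 · 4ABCE ≤ 16 N E`; `(A B)⁴ (4j)⁴ ≤ (4ABC)⁴ ≤ N⁴`. So
`((sA A)⁴ j³) ((sB B)⁴ j³) = (sA sB)⁴ (AB)⁴ j⁶ ≤ 16 N E (AB)⁴ j⁶ ≤ N (E j²) (256 (AB)⁴ j⁴) ≤ N · N · N⁴ = N³ · N³`.
If both factors were `> N³`, the product would be `> N⁶`.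
-/

set_option autoImplicit false

namespace Pool.Agent.PWS

theorem key_ineq {A B C E m p q N j : ℕ} (hA : 0 < A) (hB : 0 < B) (hC : 0 < C) (hE : 0 < E)
    (hj : 0 < j) (hq : 0 < q) (hqp : q < p) (hAB : A.Coprime B) (hAC : A.Coprime C)
    (hAE : A.Coprime E) (hBC : B.Coprime C) (hBE : B.Coprime E)
    (h : 4 * (A * B * C * E) = m ^ 2 * (p ^ 3 * q)) (hN : 4 * (A * B * C) ≤ N) (hjC : j ≤ C)
    (hEj : E * j ^ 2 ≤ N) :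
    (sp A * A) ^ 4 * j ^ 3 ≤ N ^ 3 ∨ (sp B * B) ^ 4 * j ^ 3 ≤ N ^ 3 := by
  have h1 : sp A * sp B ≤ 2 * q :=
    Nat.le_of_dvd (by omega) (sp_dvd hA hB hAB hAC hAE hBC hBE h)
  have hm : 0 < m := by
    rcases Nat.eq_zero_or_pos m with h0 | h0
    · exfalso
      rw [h0] at h
      have : 0 < 4 * (A * B * C * E) := by positivity
      rw [h] at this
      simp at this
    · exact h0
  have h2 : q ^ 4 ≤ 4 * (A * B * C * E) := by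
    rw [h]
    have a1 : q ^ 3 ≤ p ^ 3 := Nat.pow_le_pow_left hqp.le 3
    have a2 : q ^ 3 * q ≤ p ^ 3 * q := Nat.mul_le_mul_right q a1
    have a3 : 1 ≤ m ^ 2 := Nat.one_le_pow _ _ hm
    calc q ^ 4 = 1 * (q ^ 3 * q) := by ring
      _ ≤ m ^ 2 * (p ^ 3 * q) := Nat.mul_le_mul a3 a2
  have h3 : (sp A * sp B) ^ 4 ≤ 16 * (N * E) := by
    calc (sp A * sp B) ^ 4 ≤ (2 * q) ^ 4 := Nat.pow_le_pow_left h1 4
      _ = 16 * q ^ 4 := by ring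
      _ ≤ 16 * (4 * (A * B * C * E)) := Nat.mul_le_mul_left 16 h2
      _ = 16 * (4 * (A * B * C) * E) := by ring
      _ ≤ 16 * (N * E) := Nat.mul_le_mul_left 16 (Nat.mul_le_mul_right E hN)
  have h4 : 4 * (A * B * j) ≤ N :=
    (Nat.mul_le_mul_left 4 (Nat.mul_le_mul_left (A * B) hjC)).trans hN
  have h5 : 16 * ((A * B) ^ 4 * j ^ 4) ≤ N ^ 4 := by
    calc 16 * ((A * B) ^ 4 * j ^ 4) ≤ 256 * ((A * B) ^ 4 * j ^ 4) :=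
          Nat.mul_le_mul_right _ (by norm_num)
      _ = (4 * (A * B * j)) ^ 4 := by ring
      _ ≤ N ^ 4 := Nat.pow_le_pow_left h4 4
  have h6 : ((sp A * A) ^ 4 * j ^ 3) * ((sp B * B) ^ 4 * j ^ 3) ≤ N ^ 3 * N ^ 3 := by
    calc ((sp A * A) ^ 4 * j ^ 3) * ((sp B * B) ^ 4 * j ^ 3)
        = (sp A * sp B) ^ 4 * ((A * B) ^ 4 * j ^ 6) := by ring
      _ ≤ 16 * (N * E) * ((A * B) ^ 4 * j ^ 6) := Nat.mul_le_mul_right _ h3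
      _ = N * (E * j ^ 2) * (16 * ((A * B) ^ 4 * j ^ 4)) := by ring
      _ ≤ N * N * N ^ 4 := Nat.mul_le_mul (Nat.mul_le_mul_left N hEj) h5
      _ = N ^ 3 * N ^ 3 := by ring
  by_contra hcon
  rw [not_or] at hcon
  obtain ⟨b1, b2⟩ := hcon
  exact absurd h6 (not_le.2 (Nat.mul_lt_mul'' (not_le.1 b1) (not_le.1 b2)))

end Pool.Agent.PWS
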