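import Pool.Agent.PWS.Defs

/-!
PWS-KeyC. One of three coprime blocks divides the cube of a small number.

`W = m * p * q`; `4ABCE` divides `W³` and `W² ≤ 4ABCE ≤ N E`.  The greatest common divisors of `A`, `B`, `C E` with `W` are
pairwise coprime divisors of `W`, and `A` divides the cube of the first one, and so on; the smallest works.
-/

set_option autoImplicit false

namespace Pool.Agent.PWS

private theorem keyC_cube {A W : ℕ} (h : A ∣ W ^ 3) : A ∣ (Nat.gcd A W) ^ 3 := by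
  have h1 : Nat.gcd A (W ^ 3) = A := Nat.gcd_eq_left h
  have h2 : Nat.gcd A (W ^ 3) ∣ (Nat.gcd A W) ^ 3 := by
    have e1 : W ^ 3 = (W * W) * W := by ring
    have e2 : (Nat.gcd A W) ^ 3 = (Nat.gcd A W * Nat.gcd A W) * Nat.gcd A W := by ring
    rw [e1, e2]
    exact (Nat.gcd_mul_right_dvd_mul_gcd A (W * W) W).trans
      (Nat.mul_dvd_mul_right (Nat.gcd_mul_right_dvd_mul_gcd A W W) _)
  rw [h1] at h2
  exact h2

private theorem keyC_small {w u v W T N E j : ℕ} (hwu : w ≤ u) (hwv : w ≤ v) (hW : w * u * v ≤ W)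
    (hWT : W ^ 2 ≤ T) (hT : T ≤ N * E) (hEj : E * j ^ 2 ≤ N) : w ^ 3 * j ≤ N := by
  have h1 : w ^ 3 ≤ W := by
    calc w ^ 3 = w * w * w := by ring
      _ ≤ w * u * v := Nat.mul_le_mul (Nat.mul_le_mul_left w hwu) hwv
      _ ≤ W := hW
  have h2 : (w ^ 3 * j) ^ 2 ≤ N ^ 2 := by
    calc (w ^ 3 * j) ^ 2 = (w ^ 3) ^ 2 * j ^ 2 := by ring
      _ ≤ W ^ 2 * j ^ 2 := Nat.mul_le_mul_right _ (Nat.pow_le_pow_left h1 2)
      _ ≤ (N * E) * j ^ 2 := Nat.mul_le_mul_right _ (hWT.trans hT)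
      _ = N * (E * j ^ 2) := by ring
      _ ≤ N * N := Nat.mul_le_mul_left N hEj
      _ = N ^ 2 := by ring
  exact (Nat.pow_le_pow_iff_left (by norm_num)).mp h2

theorem keyC {A B C E m p q N j : ℕ} (hA : 0 < A) (hB : 0 < B) (hC : 0 < C) (hE : 0 < E)
    (hq : 0 < q) (hqp : q < p) (hAB : A.Coprime B) (hAC : A.Coprime C)
    (hAE : A.Coprime E) (hBC : B.Coprime C) (hBE : B.Coprime E)
    (h : 4 * (A * B * C * E) = m ^ 2 * (p ^ 3 * q)) (hN : 4 * (A * B * C) ≤ N)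
    (hEj : E * j ^ 2 ≤ N) :
    ∃ w : ℕ, 0 < w ∧ w ^ 3 * j ≤ N ∧ (A ∣ w ^ 3 ∨ B ∣ w ^ 3 ∨ C ∣ w ^ 3) := by
  have hp : 0 < p := lt_of_le_of_lt (Nat.zero_le q) hqp
  have hm : 0 < m := by
    rcases Nat.eq_zero_or_pos m with h0 | h0
    · rw [h0] at h
      have h1 : 0 < 4 * (A * B * C * E) := by positivity
      rw [h] at h1
      simp at h1
    · exact h0
  have hWpos : 0 < m * p * q := Nat.mul_pos (Nat.mul_pos hm hp) hq
  have hTd : 4 * (A * B * C * E) ∣ (m * p * q) ^ 3 := by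
    rw [h]
    exact ⟨m * q ^ 2, by ring⟩
  have hWT : (m * p * q) ^ 2 ≤ 4 * (A * B * C * E) := by
    rw [h]
    calc (m * p * q) ^ 2 = (m ^ 2 * p ^ 2 * q) * q := by ring
      _ ≤ (m ^ 2 * p ^ 2 * q) * p := Nat.mul_le_mul_left _ hqp.le
      _ = m ^ 2 * (p ^ 3 * q) := by ring
  have hT : 4 * (A * B * C * E) ≤ N * E := by
    calc 4 * (A * B * C * E) = (4 * (A * B * C)) * E := by ring
      _ ≤ N * E := Nat.mul_le_mul_right E hN
  have dA : A ∣ (Nat.gcd A (m * p * q)) ^ 3 :=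
    keyC_cube ((Dvd.intro (4 * (B * C * E)) (by ring)).trans hTd)
  have dB : B ∣ (Nat.gcd B (m * p * q)) ^ 3 :=
    keyC_cube ((Dvd.intro (4 * (A * C * E)) (by ring)).trans hTd)
  have dC : C ∣ (Nat.gcd (C * E) (m * p * q)) ^ 3 :=
    (Dvd.intro E rfl).trans (keyC_cube ((Dvd.intro (4 * (A * B)) (by ring)).trans hTd))
  have pA : 0 < Nat.gcd A (m * p * q) := Nat.gcd_pos_of_pos_left _ hA
  have pB : 0 < Nat.gcd B (m * p * q) := Nat.gcd_pos_of_pos_left _ hB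
  have pC : 0 < Nat.gcd (C * E) (m * p * q) := Nat.gcd_pos_of_pos_left _ (Nat.mul_pos hC hE)
  have cAB : (Nat.gcd A (m * p * q)).Coprime (Nat.gcd B (m * p * q)) :=
    (hAB.coprime_dvd_left (Nat.gcd_dvd_left _ _)).coprime_dvd_right (Nat.gcd_dvd_left _ _)
  have cAC : (Nat.gcd A (m * p * q)).Coprime (Nat.gcd (C * E) (m * p * q)) :=
    ((hAC.mul_right hAE).coprime_dvd_left (Nat.gcd_dvd_left _ _)).coprime_dvd_right
      (Nat.gcd_dvd_left _ _)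
  have cBC : (Nat.gcd B (m * p * q)).Coprime (Nat.gcd (C * E) (m * p * q)) :=
    ((hBC.mul_right hBE).coprime_dvd_left (Nat.gcd_dvd_left _ _)).coprime_dvd_right
      (Nat.gcd_dvd_left _ _)
  have dAB : Nat.gcd A (m * p * q) * Nat.gcd B (m * p * q) ∣ m * p * q :=
    cAB.mul_dvd_of_dvd_of_dvd (Nat.gcd_dvd_right _ _) (Nat.gcd_dvd_right _ _)
  have dABC : Nat.gcd A (m * p * q) * Nat.gcd B (m * p * q) * Nat.gcd (C * E) (m * p * q) ∣
      m * p * q :=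
    (cAC.mul_left cBC).mul_dvd_of_dvd_of_dvd dAB (Nat.gcd_dvd_right _ _)
  have hle := Nat.le_of_dvd hWpos dABC
  generalize Nat.gcd A (m * p * q) = a at *
  generalize Nat.gcd B (m * p * q) = b at *
  generalize Nat.gcd (C * E) (m * p * q) = c at *
  have case1 : a ≤ b → a ≤ c → ∃ w : ℕ, 0 < w ∧ w ^ 3 * j ≤ N ∧ (A ∣ w ^ 3 ∨ B ∣ w ^ 3 ∨ C ∣ w ^ 3) :=
    fun h1 h2 => ⟨a, pA, keyC_small h1 h2 hle hWT hT hEj, Or.inl dA⟩
  have case2 : b ≤ a → b ≤ c → ∃ w : ℕ, 0 < w ∧ w ^ 3 * j ≤ N ∧ (A ∣ w ^ 3 ∨ B ∣ w ^ 3 ∨ C ∣ w ^ 3) :=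
    fun h1 h2 => ⟨b, pB, keyC_small h1 h2 (by rw [Nat.mul_comm b a]; exact hle) hWT hT hEj,
      Or.inr (Or.inl dB)⟩
  have case3 : c ≤ a → c ≤ b → ∃ w : ℕ, 0 < w ∧ w ^ 3 * j ≤ N ∧ (A ∣ w ^ 3 ∨ B ∣ w ^ 3 ∨ C ∣ w ^ 3) :=
    fun h1 h2 => ⟨c, pC, keyC_small h1 h2
      (by rw [Nat.mul_assoc c a b, Nat.mul_comm c (a * b)]; exact hle) hWT hT hEj,
      Or.inr (Or.inr dC)⟩
  rcases le_total a b with h1 | h1
  · rcases le_total a c with h2 | h2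
    · exact case1 h1 h2
    · exact case3 h2 (h2.trans h1)
  · rcases le_total b c with h2 | h2
    · exact case2 h1 h2
    · exact case3 (h2.trans h1) h2

end Pool.Agent.PWS
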