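import Pool.Agent.PWS.Defs

/-!
PWS-Low. There are at least `N^(1/3) / 8` triples `a < b < c ≤ N` which are not regular.

PLAN. The triples `(k - 1, k + 1, 16k³ - 4k)`, `k ≥ 2`: `(k-1)(k+1) + 1 = k²`, `(k-1)(16k³-4k) + 1 = (4k²-2k-1)²`,
`(k+1)(16k³-4k) + 1 = (4k²+2k-1)²`, and `c - a - b = 16k³ - 6k ≠ ±2k`. They are distinct, and `c ≤ N` if `16 k³ ≤ N`. With `κ = (N/16)^(1/3) ≥ 2`
(`N ≥ 128`) there are `⌊κ⌋ - 1` values of `k`; `⌊κ⌋ - 1 ≥ κ/3` (`κ ≥ 3`: `⌊κ⌋ - 1 ≥ κ - 2 ≥ κ/3`; `2 ≤ κ < 3`: `1 ≥ κ/3`) and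
`κ / 3 ≥ N^(1/3) / 8` because `3 · 16^(1/3) ≤ 8`, `27 · 16 = 432 ≤ 512`.
-/

set_option autoImplicit false

open Finset

namespace Pool.Agent.PWS

/-- the triple number `m` (`k = m + 2`) -/
private def tr (m : ℕ) : ℕ × ℕ × ℕ := (m + 1, m + 3, 16 * (m + 2) ^ 3 - 4 * (m + 2))

private lemma tr_c (m : ℕ) : 16 * (m + 2) ^ 3 - 4 * (m + 2) =
    16 * m ^ 3 + 96 * m ^ 2 + 188 * m + 120 := by
  have h : 16 * (m + 2) ^ 3 = (16 * m ^ 3 + 96 * m ^ 2 + 188 * m + 120) + 4 * (m + 2) := by ring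
  rw [h, Nat.add_sub_cancel]

private lemma tr_mem {N m : ℕ} (h : 16 * (m + 2) ^ 3 ≤ N) : tr m ∈ irregular N := by
  have hc := tr_c m
  have hle : 16 * m ^ 3 + 96 * m ^ 2 + 188 * m + 120 ≤ N := by
    have h2 : 16 * (m + 2) ^ 3 = (16 * m ^ 3 + 96 * m ^ 2 + 188 * m + 120) + 4 * (m + 2) := by ring
    omega
  simp only [irregular, triples, tr, mem_filter, mem_product, mem_Icc]
  rw [hc]
  refine ⟨⟨⟨⟨by omega, ?_⟩, ⟨by omega, ?_⟩, ⟨by omega, hle⟩⟩, by omega, ?_, ?_, ?_, ?_⟩, ?_⟩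
  · have : 0 ≤ 16 * m ^ 3 + 96 * m ^ 2 := Nat.zero_le _
    omega
  · have : 0 ≤ 16 * m ^ 3 + 96 * m ^ 2 := Nat.zero_le _
    omega
  · have : 0 ≤ 16 * m ^ 3 + 96 * m ^ 2 := Nat.zero_le _
    omega
  · exact ⟨m + 2, by ring⟩
  · exact ⟨4 * m ^ 2 + 14 * m + 11, by ring⟩
  · exact ⟨4 * m ^ 2 + 18 * m + 19, by ring⟩
  · unfold Regular
    push_cast
    intro h0
    have h1 : (0 : ℤ) ≤ m := Int.natCast_nonneg m
    nlinarith [pow_nonneg h1 2, pow_nonneg h1 3, pow_nonneg h1 4, pow_nonneg h1 5,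
      pow_nonneg h1 6]

private lemma tr_inj : Function.Injective tr := by
  intro a b h
  have h1 : a + 1 = b + 1 := congrArg Prod.fst h
  omega

private lemma card_ge {N K : ℕ} (hK : 16 * (K + 1) ^ 3 ≤ N) : K ≤ (irregular N).card := by
  have h1 : ((range K).image tr) ⊆ irregular N := by
    intro t ht
    obtain ⟨m, hm, rfl⟩ := mem_image.1 ht
    refine tr_mem (le_trans (Nat.mul_le_mul_left 16 (Nat.pow_le_pow_left ?_ 3)) hK)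
    have := mem_range.1 hm
    omega
  have h2 := card_le_card h1
  rwa [card_image_of_injective _ tr_inj, card_range] at h2

theorem low {N : ℕ} (hN : 128 ≤ N) : (N : ℝ) ^ (1 / 3 : ℝ) / 8 ≤ ((irregular N).card : ℝ) := by
  have hN0 : (0 : ℝ) ≤ N := Nat.cast_nonneg N
  have hN' : (128 : ℝ) ≤ N := by exact_mod_cast hN
  obtain ⟨t, ht⟩ : ∃ t : ℝ, t = (N : ℝ) ^ (1 / 3 : ℝ) := ⟨_, rfl⟩
  obtain ⟨κ, hκ⟩ : ∃ κ : ℝ, κ = ((N : ℝ) / 16) ^ (1 / 3 : ℝ) := ⟨_, rfl⟩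
  have ht0 : 0 ≤ t := ht ▸ Real.rpow_nonneg hN0 _
  have hκ0 : 0 ≤ κ := hκ ▸ Real.rpow_nonneg (by positivity) _
  have ht3 : t ^ 3 = N := by
    rw [ht, ← Real.rpow_natCast, ← Real.rpow_mul hN0]
    norm_num
  have hκ3 : κ ^ 3 = N / 16 := by
    rw [hκ, ← Real.rpow_natCast, ← Real.rpow_mul (by positivity)]
    norm_num
  have hκ2 : (2 : ℝ) ≤ κ := by
    refine (pow_le_pow_iff_left₀ (by norm_num) hκ0 (by norm_num : (3 : ℕ) ≠ 0)).1 ?_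
    rw [hκ3]
    linarith
  have htκ : 3 * t / 8 ≤ κ := by
    refine (pow_le_pow_iff_left₀ (by positivity) hκ0 (by norm_num : (3 : ℕ) ≠ 0)).1 ?_
    have : (3 * t / 8) ^ 3 = 27 / 512 * t ^ 3 := by ring
    rw [hκ3, this, ht3]
    linarith
  obtain ⟨F, hF⟩ : ∃ F : ℕ, F = ⌊κ⌋₊ := ⟨_, rfl⟩
  have hF1 : (F : ℝ) ≤ κ := hF ▸ Nat.floor_le hκ0
  have hF2 : κ < F + 1 := hF ▸ Nat.lt_floor_add_one κ
  have hF3 : 2 ≤ F := by
    rw [hF]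
    exact Nat.le_floor (by exact_mod_cast hκ2)
  have hK : 16 * ((F - 1) + 1) ^ 3 ≤ N := by
    have h1 : (F - 1) + 1 = F := by omega
    rw [h1]
    have h2 : (F : ℝ) ^ 3 ≤ κ ^ 3 := pow_le_pow_left₀ (Nat.cast_nonneg F) hF1 3
    rw [hκ3] at h2
    have h3 : (16 : ℝ) * (F : ℝ) ^ 3 ≤ N := by linarith
    exact_mod_cast h3
  have h4 := card_ge hK
  have h5 : ((F : ℝ) - 1) ≤ ((irregular N).card : ℝ) := by
    have h6 : ((F - 1 : ℕ) : ℝ) ≤ ((irregular N).card : ℝ) := by exact_mod_cast h4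
    rwa [Nat.cast_sub (by omega), Nat.cast_one] at h6
  have h7 : (2 : ℝ) ≤ F := by exact_mod_cast hF3
  rw [← ht]
  linarith

end Pool.Agent.PWS
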