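import Pool.Agent.PWS.NF

/-!
PWS-NReg. A triple with torsion `ℤ/2 × ℤ/6` is not regular (known; elementary proof): from the normal form
`i (i + 2 u) = a (a + 2 r)`, `k (k + 2 u) = b (b + 2 r)`, `i k = u²`, `a b + 1 = r²`, which is impossible.
-/

set_option autoImplicit false

namespace Pool.Agent.PWS

open Pool.Agent.DPT (HasTorsion26)

/-- the final contradiction -/
private theorem NReg_core {a b r i k u : ℤ} (ha : 0 < a) (hb : 0 < b) (hr : 0 < r) (hi : 0 < i) (hk : 0 < k)
    (hu : 0 < u) (h1 : a * b + 1 = r ^ 2) (h2 : i * k = u ^ 2) (h3 : i * (i + 2 * u) = a * (a + 2 * r))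
    (h4 : k * (k + 2 * u) = b * (b + 2 * r)) : False := by
  have key : ∀ a b r i k u : ℤ, 0 < a → 0 < b → 0 < r → 0 < i → 0 < k → 0 < u → a * b + 1 = r ^ 2 →
      i * k = u ^ 2 → i * (i + 2 * u) = a * (a + 2 * r) → k * (k + 2 * u) = b * (b + 2 * r) → i ≤ a → False := by
    intro a b r i k u ha hb hr hi hk hu h1 h2 h3 h4 hia
    have s1 : a + 2 * r ≤ i + 2 * u := by
      by_contra hc
      push Not at hc
      have : i * (i + 2 * u) < a * (a + 2 * r) :=
        mul_lt_mul' hia hc (by linarith) ha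
      linarith
    have s2 : r ≤ u := by linarith
    have s3 : b < k := by
      by_contra hc
      push Not at hc
      have t1 : i * k ≤ a * b := mul_le_mul hia hc hk.le ha.le
      have t2 : r ^ 2 ≤ u ^ 2 := pow_le_pow_left₀ hr.le s2 2
      linarith
    have s4 : b * (b + 2 * r) < k * (k + 2 * u) :=
      mul_lt_mul'' s3 (by linarith) hb.le (by linarith)
    linarith
  rcases le_or_gt i a with hia | hia
  · exact key a b r i k u ha hb hr hi hk hu h1 h2 h3 h4 hia
  rcases le_or_gt k b with hkb | hkb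
  · exact key b a r k i u hb ha hr hk hi hu (by linarith) (by linarith) h4 h3 hkb
  · have t1 : (a + 1) * (b + 1) ≤ i * k := mul_le_mul (by linarith) (by linarith) (by linarith) hi.le
    have t2 : r < u := by
      by_contra hc
      push Not at hc
      have : u ^ 2 ≤ r ^ 2 := pow_le_pow_left₀ hu.le hc 2
      linarith
    have s4 : a * (a + 2 * r) < i * (i + 2 * u) :=
      mul_lt_mul'' hia (by linarith) ha.le (by linarith)
    linarith

theorem not_regular {a b c : ℕ} (ha : 0 < a) (hab : a < b) (hbc : b < c)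
    (hr : IsSquare (a * b + 1)) (ht : HasTorsion26 a b c) : ¬ Regular a b c := by
  intro hreg
  obtain ⟨p, q, m, hp, hq, hm, e1, e2⟩ := normal_form ha hab hbc ht
  obtain ⟨r, hr⟩ := hr
  have c1 : ((c - a : ℕ) : ℤ) = (c : ℤ) - a := Nat.cast_sub (hab.trans hbc).le
  have c2 : ((b - a : ℕ) : ℤ) = (b : ℤ) - a := Nat.cast_sub hab.le
  have f1 : (b : ℤ) * (c - a) = (m : ℤ) ^ 2 * ((p + q) ^ 3 * (3 * p + q)) := by
    rw [← c1]
    exact_mod_cast e1
  have f2 : (c : ℤ) * (b - a) = (m : ℤ) ^ 2 * ((2 * p + q) ^ 3 * q) := by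
    rw [← c2]
    exact_mod_cast e2
  have ha' : (0 : ℤ) < a := by exact_mod_cast ha
  have hab' : (a : ℤ) < b := by exact_mod_cast hab
  have hbc' : (b : ℤ) < c := by exact_mod_cast hbc
  have hp' : (0 : ℤ) < p := by exact_mod_cast hp
  have hq' : (0 : ℤ) < q := by exact_mod_cast hq
  have hm' : (0 : ℤ) < m := by exact_mod_cast hm
  have hr' : (a : ℤ) * b + 1 = (r : ℤ) ^ 2 := by
    rw [sq]
    exact_mod_cast hr
  have hra : (a : ℤ) < r := by
    by_contra hc
    push Not at hc
    have h1 : (r : ℤ) ^ 2 ≤ (a : ℤ) ^ 2 := pow_le_pow_left₀ (Int.natCast_nonneg r) hc 2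
    have h2 : (a : ℤ) * a < a * b := mul_lt_mul_of_pos_left hab' ha'
    rw [sq (a : ℤ)] at h1
    linarith
  have hc : (c : ℤ) = a + b + 2 * r := by
    have h1 : ((c : ℤ) - a - b) ^ 2 = (2 * (r : ℤ)) ^ 2 := by
      rw [hreg, hr']
      ring
    rcases sq_eq_sq_iff_eq_or_eq_neg.1 h1 with h | h
    · linarith
    · exfalso
      linarith
  refine NReg_core (a := a) (b := b) (r := r) (i := m * p ^ 2) (k := m * (p + q) ^ 2) (u := m * p * (p + q))
    ha' (by linarith) (by linarith) (by positivity) (by positivity) (by positivity) hr' (by ring) ?_ ?_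
  · rw [hc] at f1 f2
    linear_combination f2 - f1
  · rw [hc] at f1
    linear_combination -f1

end Pool.Agent.PWS
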