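import Pool.Agent.PWS.Desc
import Pool.Agent.PWS.NReg

/-!
PWS-Split. Every exceptional triple comes from a triple of case (A) or case (B).

PLAN. Let `(a, b, c) ∈ exceptional N`. By `not_regular` and `desc`: `c = a + b + e + 2abe + 2 r x' y'` with `e ≥ 1`, `ab + 1 = r²`,
`ae + 1 = x'²`, `be + 1 = y'²`; so `c = F a b e` with `F a b e := a + b + e + 2abe + 2 √((ab+1)(ae+1)(be+1))` (`Nat.sqrt`) and `c > 4abe`.
`e ≠ a` and `e ≠ b` (`a² + 1` is not a square). Sort `{e, a, b} = {x < y < z}`.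
* not `Regular x y z`: by `desc` for `(x, y, z)` we get `z > 4xy`, so `N ≥ c > 4xyz > 16x²y²` and `(x, y, z) ∈ AA N`; the triple `(a, b, c)` is
  `(y, z, F x y z)`, `(x, z, F x y z)` or `(x, y, F x y z)` (`F` is symmetric).
* `Regular x y z`: `z = x + y + 2j`, `xy + 1 = j²`, `xz + 1 = (j+x)²`, `yz + 1 = (j+y)²`, `c = 4j(j+x)(j+y) = cc x y j`,
  `z = zz x y j`, `(x, y, j) ∈ GG N` (`j ≤ N` etc. because `4 j (j+x) (j+y) ≤ N`), and `(a, b, c)` is `(y, z, c)`, `(x, z, c)` or `(x, y, c)`.
So `exceptional N` is contained in the union of six images (`card_union_le`, `card_image_le`).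
-/

set_option autoImplicit false

open Finset

namespace Pool.Agent.PWS

open Pool.Agent.DPT (HasTorsion26)

private def FF3 (t : ℕ × ℕ × ℕ) : ℕ :=
  t.1 + t.2.1 + t.2.2 + 2 * t.1 * t.2.1 * t.2.2 +
    2 * Nat.sqrt ((t.1 * t.2.1 + 1) * (t.1 * t.2.2 + 1) * (t.2.1 * t.2.2 + 1))

private theorem lt_uvw {x y z u v w : ℕ} (hu : x * y + 1 = u ^ 2) (hv : x * z + 1 = v ^ 2)
    (hw : y * z + 1 = w ^ 2) : x * y * z < u * v * w := by
  have h1 : (u * v * w) ^ 2 = (x * y + 1) * (x * z + 1) * (y * z + 1) := by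
    rw [hu, hv, hw]
    ring
  have h2 : (x * y * z) ^ 2 < (u * v * w) ^ 2 := by
    rw [h1]
    have h3 : (x * y + 1) * (x * z + 1) * (y * z + 1) = (x * y * z) ^ 2 +
        ((x * y) * (x * z) + (x * y) * (y * z) + (x * z) * (y * z) + x * y + x * z + y * z + 1) := by
      ring
    rw [h3]
    omega
  exact lt_of_pow_lt_pow_left₀ 2 (Nat.zero_le _) h2

private theorem sqrt_uvw {x y z u v w : ℕ} (hu : x * y + 1 = u ^ 2) (hv : x * z + 1 = v ^ 2)
    (hw : y * z + 1 = w ^ 2) :
    Nat.sqrt ((x * y + 1) * (x * z + 1) * (y * z + 1)) = u * v * w := by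
  rw [hu, hv, hw, show u ^ 2 * v ^ 2 * w ^ 2 = (u * v * w) * (u * v * w) by ring, Nat.sqrt_eq]

private theorem no_sq {a x : ℕ} (ha : 0 < a) (h : a * a + 1 = x ^ 2) : False := by
  have h1 : a < x := by
    by_contra h2
    have h3 : x ≤ a := by omega
    have : x ^ 2 ≤ a * a := by
      rw [sq]
      exact Nat.mul_le_mul h3 h3
    omega
  have h4 : (a + 1) * (a + 1) ≤ x ^ 2 := by
    rw [sq]
    exact Nat.mul_le_mul h1 h1
  nlinarith

private theorem core {N x y z u v w c : ℕ} (hx : 0 < x) (hxy : x < y) (hyz : y < z)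
    (hu : x * y + 1 = u ^ 2) (hv : x * z + 1 = v ^ 2) (hw : y * z + 1 = w ^ 2)
    (hc : c = x + y + z + 2 * (x * y * z) + 2 * (u * v * w)) (hcN : c ≤ N) :
    ((x, y, z) ∈ AA N ∧ c = FF3 (x, y, z)) ∨
      (x ∈ Icc 1 N ∧ y ∈ Icc 1 N ∧ u ∈ Icc 1 N ∧ z = zz x y u ∧ c = cc x y u) := by
  have h1 := lt_uvw hu hv hw
  have hy : 0 < y := by omega
  have hz : 0 < z := by omega
  by_cases hreg : Regular x y z
  · right
    have hxu : x < u := by
      by_contra h2
      have h3 : u ≤ x := by omega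
      have h4 : u ^ 2 ≤ x * x := by
        rw [sq]
        exact Nat.mul_le_mul h3 h3
      have h5 : x * x ≤ x * y := Nat.mul_le_mul_left _ hxy.le
      omega
    have h2 : ((z : ℤ) - x - y) ^ 2 = (2 * (u : ℤ)) ^ 2 := by
      have h3 : ((z : ℤ) - x - y) ^ 2 = 4 * ((x : ℤ) * y + 1) := hreg
      have h4 : ((x : ℤ) * y + 1) = (u : ℤ) ^ 2 := by exact_mod_cast hu
      rw [h3, h4]
      ring
    have h3 : z = x + y + 2 * u := by
      rcases sq_eq_sq_iff_eq_or_eq_neg.1 h2 with h4 | h4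
      · omega
      · omega
    have h4 : v = x + u := by
      have h5 : v ^ 2 = (x + u) ^ 2 := by
        rw [← hv, h3]
        nlinarith
      exact (Nat.pow_left_injective (by norm_num : 2 ≠ 0)) h5
    have h5 : w = y + u := by
      have h6 : w ^ 2 = (y + u) ^ 2 := by
        rw [← hw, h3]
        nlinarith
      exact (Nat.pow_left_injective (by norm_num : 2 ≠ 0)) h6
    have h6 : c = cc x y u := by
      have h7 : (x : ℤ) * y = (u : ℤ) ^ 2 - 1 := by
        have : (x : ℤ) * y + 1 = (u : ℤ) ^ 2 := by exact_mod_cast hu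
        linarith
      have h8 : (c : ℤ) = (cc x y u : ℤ) := by
        rw [hc, h4, h5, h3]
        unfold cc
        push_cast
        linear_combination (2 * ((x : ℤ) + y + 2 * u) - 2 * (u : ℤ)) * h7
      exact_mod_cast h8
    have hu0 : 0 < u := by omega
    refine ⟨?_, ?_, ?_, h3, h6⟩
    · rw [mem_Icc]; omega
    · rw [mem_Icc]; omega
    · rw [mem_Icc]; omega
  · left
    obtain ⟨e, x', y', he, hx', hy', hz'⟩ := desc hx hxy hyz hu hv hw hreg
    have h2 := lt_uvw hu hx' hy'
    have h3 : 4 * (x * y) < z := by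
      have h4 : x * y * 1 ≤ x * y * e := Nat.mul_le_mul_left _ he
      have h5 : z = x + y + e + 2 * (x * y * e) + 2 * (u * x' * y') := by
        rw [hz']
        ring
      omega
    have h4 : 4 * (x * y * z) < c := by omega
    have h5 : 16 * (x * y) ^ 2 ≤ N := by
      have h6 : (x * y) * (4 * (x * y)) ≤ (x * y) * z := Nat.mul_le_mul_left _ h3.le
      have h7 : 16 * (x * y) ^ 2 = 4 * ((x * y) * (4 * (x * y))) := by ring
      rw [h7]
      omega
    refine ⟨?_, ?_⟩
    · unfold AA triples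
      rw [mem_filter, mem_filter, mem_product, mem_product, mem_Icc, mem_Icc, mem_Icc]
      refine ⟨⟨⟨⟨?_, ?_⟩, ⟨?_, ?_⟩, ?_, ?_⟩, hxy, hyz, ?_, ?_, ?_⟩, h5⟩
      · exact hx
      · show x ≤ N
        omega
      · exact hy
      · show y ≤ N
        omega
      · exact hz
      · show z ≤ N
        omega
      · exact ⟨u, by rw [hu, sq]⟩
      · exact ⟨v, by rw [hv, sq]⟩
      · exact ⟨w, by rw [hw, sq]⟩
    · unfold FF3
      show c = x + y + z + 2 * x * y * z +
        2 * Nat.sqrt ((x * y + 1) * (x * z + 1) * (y * z + 1))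
      rw [sqrt_uvw hu hv hw, hc]
      ring

private theorem mem_GG {N x y u : ℕ} (hx : x ∈ Icc 1 N) (hy : y ∈ Icc 1 N) (hu : u ∈ Icc 1 N)
    (hxy : x < y) (h : x * y + 1 = u ^ 2) (hc : cc x y u ≤ N) (hb : BadE x y u) :
    (x, y, u) ∈ GG N := by
  classical
  unfold GG
  rw [mem_filter, mem_product, mem_product]
  exact ⟨⟨hx, hy, hu⟩, hxy, h, hc, hb⟩

theorem split (N : ℕ) : (exceptional N).card ≤ 3 * (AA N).card + 3 * (GG N).card := by
  classical
  have hsub : exceptional N ⊆
      (((AA N).image fun t => (t.2.1, t.2.2, FF3 t)) ∪ ((AA N).image fun t => (t.1, t.2.2, FF3 t)) ∪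
        ((AA N).image fun t => (t.1, t.2.1, FF3 t))) ∪
      (((GG N).image fun t => (t.2.1, zz t.1 t.2.1 t.2.2, cc t.1 t.2.1 t.2.2)) ∪
        ((GG N).image fun t => (t.1, zz t.1 t.2.1 t.2.2, cc t.1 t.2.1 t.2.2)) ∪
        ((GG N).image fun t => (t.1, t.2.1, cc t.1 t.2.1 t.2.2))) := by
    rintro ⟨a, b, c⟩ ht
    have ht' := ht
    unfold exceptional triples at ht'
    rw [mem_filter, mem_filter, mem_product, mem_product, mem_Icc, mem_Icc, mem_Icc] at ht'
    obtain ⟨⟨⟨⟨ha1, haN⟩, ⟨hb1, hbN⟩, hc1, hcN⟩, hab, hbc, hsab, hsac, hsbc⟩, htor⟩ := ht'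
    have ha1' : 0 < a := ha1
    have hcN' : c ≤ N := hcN
    have hab' : a < b := hab
    have hbc' : b < c := hbc
    have htor' : HasTorsion26 a b c := htor
    have hne := not_regular ha1' hab' hbc' hsab htor'
    obtain ⟨r, hr⟩ := hsab
    obtain ⟨s, hs⟩ := hsac
    obtain ⟨t, ht2⟩ := hsbc
    have hr' : a * b + 1 = r ^ 2 := by rw [sq]; exact hr
    have hs' : a * c + 1 = s ^ 2 := by rw [sq]; exact hs
    have ht2' : b * c + 1 = t ^ 2 := by rw [sq]; exact ht2
    obtain ⟨e, x', y', he, hx', hy', hc⟩ := desc ha1' hab' hbc' hr' hs' ht2' hne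
    have hea : e ≠ a := by
      rintro rfl
      exact no_sq he hx'
    have heb : e ≠ b := by
      rintro rfl
      exact no_sq he hy'
    simp only [mem_union, mem_image]
    rcases lt_trichotomy e a with h1 | h1 | h1
    · -- e < a < b
      have hx2 : e * a + 1 = x' ^ 2 := by rw [mul_comm e a]; exact hx'
      have hy2 : e * b + 1 = y' ^ 2 := by rw [mul_comm e b]; exact hy'
      rcases core (N := N) he h1 hab' hx2 hy2 hr' (c := c) (by rw [hc]; ring) hcN' with
        ⟨h2, h3⟩ | ⟨h2, h3, h4, h5, h6⟩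
      · left; left; left
        exact ⟨(e, a, b), h2, by rw [← h3]⟩
      · right; left; left
        refine ⟨(e, a, x'), mem_GG h2 h3 h4 h1 hx2 (by rw [← h6]; exact hcN') ?_, ?_⟩
        · right; right
          rw [← h5, ← h6]
          exact htor'
        · show (a, zz e a x', cc e a x') = (a, b, c)
          rw [← h5, ← h6]
    · exact absurd h1 hea
    · rcases lt_trichotomy e b with h2 | h2 | h2
      · -- a < e < b
        have hy2 : e * b + 1 = y' ^ 2 := by rw [mul_comm e b]; exact hy'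
        rcases core (N := N) ha1' h1 h2 hx' hr' hy2 (c := c) (by rw [hc]; ring) hcN' with
          ⟨h3, h4⟩ | ⟨h3, h4, h5, h6, h7⟩
        · left; left; right
          exact ⟨(a, e, b), h3, by rw [← h4]⟩
        · right; left; right
          refine ⟨(a, e, x'), mem_GG h3 h4 h5 h1 hx' (by rw [← h7]; exact hcN') ?_, ?_⟩
          · right; left
            rw [← h6, ← h7]
            exact htor'
          · show (a, zz a e x', cc a e x') = (a, b, c)
            rw [← h6, ← h7]
      · exact absurd h2 heb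
      · -- a < b < e
        rcases core (N := N) ha1' hab' h2 hr' hx' hy' (c := c) (by rw [hc]; ring) hcN' with
          ⟨h3, h4⟩ | ⟨h3, h4, h5, h6, h7⟩
        · left; right
          exact ⟨(a, b, e), h3, by rw [← h4]⟩
        · right; right
          refine ⟨(a, b, r), mem_GG h3 h4 h5 hab' hr' (by rw [← h7]; exact hcN') ?_, ?_⟩
          · left
            rw [← h7]
            exact htor'
          · show (a, b, cc a b r) = (a, b, c)
            rw [← h7]
  refine (card_le_card hsub).trans ?_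
  refine (card_union_le _ _).trans ?_
  have hA : (((AA N).image fun t => (t.2.1, t.2.2, FF3 t)) ∪ ((AA N).image fun t => (t.1, t.2.2, FF3 t)) ∪
        ((AA N).image fun t => (t.1, t.2.1, FF3 t))).card ≤ 3 * (AA N).card := by
    refine (card_union_le _ _).trans ?_
    have h1 := card_union_le ((AA N).image fun t => (t.2.1, t.2.2, FF3 t))
      ((AA N).image fun t => (t.1, t.2.2, FF3 t))
    have h2 := card_image_le (s := AA N) (f := fun t => (t.2.1, t.2.2, FF3 t))
    have h3 := card_image_le (s := AA N) (f := fun t => (t.1, t.2.2, FF3 t))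
    have h4 := card_image_le (s := AA N) (f := fun t => (t.1, t.2.1, FF3 t))
    omega
  have hG : (((GG N).image fun t => (t.2.1, zz t.1 t.2.1 t.2.2, cc t.1 t.2.1 t.2.2)) ∪
        ((GG N).image fun t => (t.1, zz t.1 t.2.1 t.2.2, cc t.1 t.2.1 t.2.2)) ∪
        ((GG N).image fun t => (t.1, t.2.1, cc t.1 t.2.1 t.2.2))).card ≤ 3 * (GG N).card := by
    refine (card_union_le _ _).trans ?_
    have h1 := card_union_le ((GG N).image fun t => (t.2.1, zz t.1 t.2.1 t.2.2, cc t.1 t.2.1 t.2.2))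
      ((GG N).image fun t => (t.1, zz t.1 t.2.1 t.2.2, cc t.1 t.2.1 t.2.2))
    have h2 := card_image_le (s := GG N)
      (f := fun t => (t.2.1, zz t.1 t.2.1 t.2.2, cc t.1 t.2.1 t.2.2))
    have h3 := card_image_le (s := GG N) (f := fun t => (t.1, zz t.1 t.2.1 t.2.2, cc t.1 t.2.1 t.2.2))
    have h4 := card_image_le (s := GG N) (f := fun t => (t.1, t.2.1, cc t.1 t.2.1 t.2.2))
    omega
  omega

end Pool.Agent.PWS
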