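import Pool.Agent.PWS.CaseA
import Pool.Agent.PWS.Split
import Pool.Agent.PWS.GCardC
import Pool.Agent.PWS.FinC
import Pool.Agent.PWS.Low
import Pool.Agent.Helper11.Grimm.Asy

/-!
PWS-Main. Assembly.
-/

set_option autoImplicit false

open Finset

namespace Pool.Agent.PWS

theorem upper {ε : ℝ} (hε : 0 < ε) : ∃ K : ℝ, ∀ N : ℕ, 1 ≤ N →
    ((exceptional N).card : ℝ) ≤ K * (N : ℝ) ^ (1 / 4 + ε) := by
  obtain ⟨K₁, hK1, h1⟩ := Helper11.Grimm.divisor_bound (show 0 < ε / 8 by positivity)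
  obtain ⟨K, hK⟩ := finalC hε hK1
  refine ⟨K, fun N hN => ?_⟩
  have hN2 : 1 ≤ N ^ 2 := Nat.one_le_pow _ _ (by omega)
  obtain ⟨D, hD, hD3⟩ := h1 (N ^ 2) hN2
  obtain ⟨M, U, hM, hU, hw⟩ := choose_MU N hN
  have tD2 : TauB D (N ^ 2) := fun n hn hn2 => hD n hn (by omega)
  have hNN : N ≤ N ^ 2 := by nlinarith
  have tD : TauB D N := fun n hn hn2 => tD2 n hn (hn2.trans hNN)
  have e1 := split N
  have e2 := AA_card hN tD
  have e3 := GG_cardC tD2 hw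
  have e6 := hK N D M U hN hD3 hM hU
  have f1 : ((exceptional N).card : ℝ) ≤ 3 * ((AA N).card : ℝ) + 3 * ((GG N).card : ℝ) := by
    exact_mod_cast e1
  have f2 : ((AA N).card : ℝ) ≤
      (Nat.sqrt (Nat.sqrt N) : ℝ) * (D * (2 * D * (Nat.log 2 N + 2))) := by
    exact_mod_cast e2
  have f3 : ((GG N).card : ℝ) ≤ (M : ℝ) * D + 3 * ((U : ℝ) * (D * D)) := by
    exact_mod_cast e3
  linarith

theorem main {ε : ℝ} (hε : 0 < ε) : ∃ K : ℝ, ∀ N : ℕ, 128 ≤ N →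
    ((exceptional N).card : ℝ) ≤ K * (N : ℝ) ^ (1 / 4 + ε) ∧
    ((exceptional N).card : ℝ) ≤ 8 * K * (N : ℝ) ^ (-1 / 12 + ε) * ((irregular N).card : ℝ) := by
  obtain ⟨K, hK⟩ := upper hε
  refine ⟨max K 0, fun N hN => ?_⟩
  have hN0 : (0 : ℝ) < (N : ℝ) := by
    have : 0 < N := by omega
    exact_mod_cast this
  have hp : 0 ≤ (N : ℝ) ^ (1 / 4 + ε) := Real.rpow_nonneg hN0.le _
  have h1 : ((exceptional N).card : ℝ) ≤ max K 0 * (N : ℝ) ^ (1 / 4 + ε) :=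
    (hK N (by omega)).trans (mul_le_mul_of_nonneg_right (le_max_left _ _) hp)
  refine ⟨h1, h1.trans ?_⟩
  have h2 : (N : ℝ) ^ (1 / 4 + ε) = (N : ℝ) ^ (-1 / 12 + ε) * (N : ℝ) ^ (1 / 3 : ℝ) := by
    rw [← Real.rpow_add hN0]
    congr 1
    ring
  have h3 := low hN
  have h4 : (N : ℝ) ^ (1 / 3 : ℝ) ≤ 8 * ((irregular N).card : ℝ) := by linarith
  have h5 : 0 ≤ max K 0 * (N : ℝ) ^ (-1 / 12 + ε) :=
    mul_nonneg (le_max_right _ _) (Real.rpow_nonneg hN0.le _)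
  calc max K 0 * (N : ℝ) ^ (1 / 4 + ε)
      = max K 0 * (N : ℝ) ^ (-1 / 12 + ε) * (N : ℝ) ^ (1 / 3 : ℝ) := by rw [h2]; ring
    _ ≤ max K 0 * (N : ℝ) ^ (-1 / 12 + ε) * (8 * ((irregular N).card : ℝ)) :=
        mul_le_mul_of_nonneg_left h4 h5
    _ = 8 * max K 0 * (N : ℝ) ^ (-1 / 12 + ε) * ((irregular N).card : ℝ) := by ring

end Pool.Agent.PWS
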