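import Pool.Agent.PWS.Defs
import Pool.Agent.Helper51.Tors.FromTorsion

/-!
PWS-NF. The normal form of the triples with a point of order three.
-/

set_option autoImplicit false

namespace Pool.Agent.PWS

open Pool.Agent.Helper51.Tors
open Pool.Agent.DPT (HasTorsion26)

/-- normal form with positive parameters -/
private theorem nf_int {a b c u v w d : ℤ} (h : Data a b c u v w d) (ha : 0 < a) (hab : a < b)
    (hbc : b < c) :
    ∃ p q m : ℕ, 0 < p ∧ 0 < q ∧ 0 < m ∧
      b * (c - a) = (m : ℤ) ^ 2 * ((p + q) ^ 3 * (3 * p + q)) ∧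
      c * (b - a) = (m : ℤ) ^ 2 * ((2 * p + q) ^ 3 * q) := by
  -- the case `0 < u + v`
  have key : ∀ u v w : ℤ, Data a b c u v w d → 0 < u + v →
      ∃ p q m : ℕ, 0 < p ∧ 0 < q ∧ 0 < m ∧
      b * (c - a) = (m : ℤ) ^ 2 * ((p + q) ^ 3 * (3 * p + q)) ∧
      c * (b - a) = (m : ℤ) ^ 2 * ((2 * p + q) ^ 3 * q) := by
    intro u v w h hs
    have hw : w = -u - v := by linear_combination h.hsum
    have e1 := h.h1
    have e2 := h.h2
    have e3 := h.h3
    rw [hw] at e1 e2 e3
    have hd : d ≠ 0 := by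
      rintro rfl
      have : a * (c - b) = 0 := by rw [e1]; ring
      have h2 : 0 < a * (c - b) := mul_pos ha (by linarith)
      linarith
    have hd2 : 0 < d ^ 2 := by positivity
    have h3 : 0 < d ^ 2 * ((u + v) ^ 3 * (v - u)) := by
      have : c * (b - a) = d ^ 2 * ((u + v) ^ 3 * (v - u)) := by rw [e3]; ring
      rw [← this]
      exact mul_pos (by linarith) (by linarith)
    have huv : 0 < v - u := by
      have h4 : 0 < (u + v) ^ 3 * (v - u) := (mul_pos_iff_of_pos_left hd2).1 h3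
      exact (mul_pos_iff_of_pos_left (pow_pos hs 3)).1 h4
    have hv : 0 < v := by linarith
    have h1 : 0 < d ^ 2 * (u ^ 3 * (u + 2 * v)) := by
      have : a * (c - b) = d ^ 2 * (u ^ 3 * (u + 2 * v)) := by rw [e1]; ring
      rw [← this]
      exact mul_pos ha (by linarith)
    have hu : 0 < u := by
      have h4 : 0 < u ^ 3 * (u + 2 * v) := (mul_pos_iff_of_pos_left hd2).1 h1
      have h5 : 0 < u + 2 * v := by linarith
      have h6 : 0 < u ^ 3 := (mul_pos_iff_of_pos_right h5).1 h4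
      by_contra hneg
      have h7 : 0 ≤ (-u) ^ 3 := pow_nonneg (by linarith) 3
      have h8 : (-u) ^ 3 = -u ^ 3 := by ring
      linarith
    have p1 : ((u.toNat : ℕ) : ℤ) = u := Int.toNat_of_nonneg hu.le
    have p2 : (((v - u).toNat : ℕ) : ℤ) = v - u := Int.toNat_of_nonneg huv.le
    have p3 : ((d.natAbs : ℕ) : ℤ) ^ 2 = d ^ 2 := Int.natAbs_sq d
    refine ⟨u.toNat, (v - u).toNat, d.natAbs, by omega, by omega, Int.natAbs_pos.2 hd, ?_, ?_⟩
    · rw [p1, p2, p3]
      linear_combination -e2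
    · rw [p1, p2, p3]
      linear_combination e3
  rcases lt_trichotomy (u + v) 0 with hs | hs | hs
  · refine key (-u) (-v) (-w) ⟨by linear_combination -h.hsum, ?_, ?_, ?_, ?_⟩ (by linarith)
    · obtain ⟨s, t, hst⟩ := h.hcop
      exact ⟨-s, -t, by linear_combination hst⟩
    · linear_combination h.h1
    · linear_combination h.h2
    · linear_combination h.h3
  · exfalso
    have hw : w = 0 := by linear_combination h.hsum - hs
    have : c * (b - a) = 0 := by rw [h.h3, hw]; ring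
    have h2 : 0 < c * (b - a) := mul_pos (by linarith) (by linarith)
    linarith
  · exact key u v w h hs

/-- the same in natural numbers -/
private theorem nf_nat {a b c : ℕ} {u v w d : ℤ} (h : Data (a : ℤ) b c u v w d) (ha : 0 < a)
    (hab : a < b) (hbc : b < c) :
    ∃ p q m : ℕ, 0 < p ∧ 0 < q ∧ 0 < m ∧
      b * (c - a) = m ^ 2 * ((p + q) ^ 3 * (3 * p + q)) ∧
      c * (b - a) = m ^ 2 * ((2 * p + q) ^ 3 * q) := by
  obtain ⟨p, q, m, hp, hq, hm, e1, e2⟩ := nf_int h (by exact_mod_cast ha)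
    (by exact_mod_cast hab) (by exact_mod_cast hbc)
  refine ⟨p, q, m, hp, hq, hm, ?_, ?_⟩
  · have : ((c - a : ℕ) : ℤ) = (c : ℤ) - a := by push_cast [Nat.cast_sub (hab.trans hbc).le]; ring
    zify
    rw [this]
    exact e1
  · have : ((b - a : ℕ) : ℤ) = (b : ℤ) - a := by push_cast [Nat.cast_sub hab.le]; ring
    zify
    rw [this]
    exact e2

theorem normal_form {a b c : ℕ} (ha : 0 < a) (hab : a < b) (hbc : b < c)
    (ht : HasTorsion26 a b c) :
    ∃ p q m : ℕ, 0 < p ∧ 0 < q ∧ 0 < m ∧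
      b * (c - a) = m ^ 2 * ((p + q) ^ 3 * (3 * p + q)) ∧
      c * (b - a) = m ^ 2 * ((2 * p + q) ^ 3 * q) := by
  obtain ⟨u, v, w, d, h⟩ := data_of_torsion a b c ht
  exact nf_nat h ha hab hbc

end Pool.Agent.PWS
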