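import Pool.Agent.PWS.Defs

/-!
PWS-Pow. The number of powerful numbers up to `T` is at most `3 √T`.

A powerful `n ≥ 1` is `u² v³`, so the number is at most `∑_v √(T / v³) ≤ √T ∑_v v^(-3/2) ≤ 3 √T`.
-/

set_option autoImplicit false

open Finset

namespace Pool.Agent.PWS

private lemma Pow_form {n : ℕ} (hn : 1 ≤ n) (h : Pow2 n) :
    ∃ u v : ℕ, 1 ≤ u ∧ 1 ≤ v ∧ u ^ 2 * v ^ 3 = n := by
  obtain ⟨a, b, hab, ha⟩ := Nat.sq_mul_squarefree n
  have ha0 : a ≠ 0 := ha.ne_zero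
  have hb0 : b ≠ 0 := by
    rintro rfl
    simp at hab
    omega
  have hdvd : a ∣ b := by
    rw [← Nat.prod_primeFactors_of_squarefree ha]
    refine Finset.prod_primes_dvd b (fun p hp => (Nat.prime_of_mem_primeFactors hp).prime) ?_
    intro p hp
    have hpp := Nat.prime_of_mem_primeFactors hp
    have hpa := Nat.dvd_of_mem_primeFactors hp
    by_contra hpb
    have h1 : p ^ 2 ∣ b ^ 2 * a := by
      rw [hab]
      exact h p hpp (by rw [← hab]; exact dvd_mul_of_dvd_right hpa _)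
    have h2 : Nat.Coprime (p ^ 2) (b ^ 2) :=
      Nat.Coprime.pow 2 2 ((Nat.Prime.coprime_iff_not_dvd hpp).2 hpb)
    have h3 : p ^ 2 ∣ a := h2.dvd_of_dvd_mul_left h1
    have h4 : p * p ∣ a := by rwa [← sq]
    exact hpp.one_lt.ne' (Nat.isUnit_iff.1 (ha p h4))
  obtain ⟨u, rfl⟩ := hdvd
  refine ⟨u, a, ?_, by omega, ?_⟩
  · rcases Nat.eq_zero_or_pos u with h0 | h0
    · rw [h0] at hb0
      simp at hb0
    · exact h0
  · rw [← hab]
    ring

private lemma Pow_sum (V : ℕ) (hV : 1 ≤ V) :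
    ∑ v ∈ Icc 1 V, 1 / ((v : ℝ) * Real.sqrt v) ≤ 3 - 2 / Real.sqrt V := by
  induction V, hV using Nat.le_induction with
  | base => simp; norm_num
  | succ V hV ih =>
    rw [Finset.sum_Icc_succ_top (by omega)]
    have hVr : (1 : ℝ) ≤ V := by exact_mod_cast hV
    obtain ⟨a, ha⟩ : ∃ a : ℝ, a = Real.sqrt V := ⟨_, rfl⟩
    obtain ⟨b, hb⟩ : ∃ b : ℝ, b = Real.sqrt ((V + 1 : ℕ) : ℝ) := ⟨_, rfl⟩
    have ha2 : a ^ 2 = V := by rw [ha]; exact Real.sq_sqrt (by linarith)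
    have hb2 : b ^ 2 = V + 1 := by
      rw [hb, Real.sq_sqrt (by positivity)]
      push_cast
      ring
    have ha0 : 0 < a := by rw [ha]; exact Real.sqrt_pos.2 (by linarith)
    have hb0 : 0 < b := by rw [hb]; exact Real.sqrt_pos.2 (by positivity)
    have hab : a ≤ b := by
      rw [ha, hb]
      exact Real.sqrt_le_sqrt (by push_cast; linarith)
    rw [← ha] at ih
    rw [← hb]
    have hcast : (((V + 1 : ℕ) : ℝ)) = b ^ 2 := by rw [hb2]; push_cast; ring
    rw [hcast]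
    have key : 1 / (b ^ 2 * b) ≤ 2 / a - 2 / b := by
      have h1 : 2 / a - 2 / b = 2 / (a * b * (a + b)) := by
        have h2 : (b - a) * (b + a) = 1 := by nlinarith
        field_simp
        nlinarith
      rw [h1, div_le_div_iff₀ (by positivity) (by positivity)]
      have h3 : a * b * (a + b) ≤ b * b * (b + b) := by
        apply mul_le_mul
        · exact mul_le_mul_of_nonneg_right hab hb0.le
        · linarith
        · positivity
        · positivity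
      nlinarith
    linarith

theorem pow_card (T : ℕ) : ((PP T).card : ℝ) ≤ 3 * Real.sqrt T := by
  classical
  rcases Nat.eq_zero_or_pos T with hT | hT
  · subst hT
    unfold PP
    simp
  have hsub : PP T ⊆ (Icc 1 T).biUnion (fun v => (Icc 1 (Nat.sqrt (T / v ^ 3))).image
      (fun u => u ^ 2 * v ^ 3)) := by
    intro n hn
    unfold PP at hn
    rw [mem_filter, mem_Icc] at hn
    obtain ⟨⟨h1, h2⟩, h3⟩ := hn
    obtain ⟨u, v, hu, hv, huv⟩ := Pow_form h1 h3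
    rw [mem_biUnion]
    have hv3 : 1 ≤ v ^ 3 := Nat.one_le_pow _ _ hv
    have hu2 : 1 ≤ u ^ 2 := Nat.one_le_pow _ _ hu
    refine ⟨v, ?_, ?_⟩
    · rw [mem_Icc]
      refine ⟨hv, ?_⟩
      calc v ≤ v ^ 3 := Nat.le_self_pow (by norm_num) v
        _ ≤ u ^ 2 * v ^ 3 := Nat.le_mul_of_pos_left _ (by omega)
        _ ≤ T := by rw [huv]; exact h2
    · rw [mem_image]
      refine ⟨u, ?_, huv⟩
      rw [mem_Icc]
      refine ⟨hu, ?_⟩
      rw [Nat.le_sqrt, Nat.le_div_iff_mul_le (by omega)]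
      rw [← sq, huv]
      exact h2
  have hcard : (PP T).card ≤ ∑ v ∈ Icc 1 T, Nat.sqrt (T / v ^ 3) := by
    refine (card_le_card hsub).trans (card_biUnion_le.trans (sum_le_sum fun v _ => ?_))
    refine card_image_le.trans ?_
    rw [Nat.card_Icc, Nat.add_sub_cancel]
  have hTr : (1 : ℝ) ≤ T := by exact_mod_cast hT
  have hterm : ∀ v ∈ Icc 1 T, ((Nat.sqrt (T / v ^ 3) : ℕ) : ℝ) ≤
      Real.sqrt T * (1 / ((v : ℝ) * Real.sqrt v)) := by
    intro v hv
    rw [mem_Icc] at hv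
    have hvr : (1 : ℝ) ≤ v := by exact_mod_cast hv.1
    have h1 : ((Nat.sqrt (T / v ^ 3) : ℕ) : ℝ) ≤ Real.sqrt ((T / v ^ 3 : ℕ) : ℝ) := by
      apply Real.le_sqrt_of_sq_le
      have h2 : (Nat.sqrt (T / v ^ 3)) ^ 2 ≤ T / v ^ 3 := Nat.sqrt_le' _
      exact_mod_cast h2
    refine h1.trans ?_
    have h2 : Real.sqrt T * (1 / ((v : ℝ) * Real.sqrt v)) = Real.sqrt (T / v ^ 3) := by
      have h3 : Real.sqrt ((v : ℝ) ^ 3) = v * Real.sqrt v := by
        have h4 : (v : ℝ) ^ 3 = v ^ 2 * v := by ring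
        rw [h4, Real.sqrt_mul (by positivity), Real.sqrt_sq (by linarith)]
      rw [Real.sqrt_div (by linarith), h3]
      ring
    rw [h2]
    apply Real.sqrt_le_sqrt
    have h3 := Nat.cast_div_le (α := ℝ) (m := T) (n := v ^ 3)
    push_cast at h3 ⊢
    exact h3
  calc ((PP T).card : ℝ) ≤ ((∑ v ∈ Icc 1 T, Nat.sqrt (T / v ^ 3) : ℕ) : ℝ) := by exact_mod_cast hcard
    _ = ∑ v ∈ Icc 1 T, ((Nat.sqrt (T / v ^ 3) : ℕ) : ℝ) := by push_cast; rfl
    _ ≤ ∑ v ∈ Icc 1 T, Real.sqrt T * (1 / ((v : ℝ) * Real.sqrt v)) := sum_le_sum hterm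
    _ = Real.sqrt T * ∑ v ∈ Icc 1 T, (1 / ((v : ℝ) * Real.sqrt v)) := by rw [mul_sum]
    _ ≤ Real.sqrt T * 3 := by
        apply mul_le_mul_of_nonneg_left _ (Real.sqrt_nonneg _)
        have h5 := Pow_sum T hT
        have h6 : 0 ≤ 2 / Real.sqrt (T : ℝ) := by positivity
        linarith
    _ = 3 * Real.sqrt T := by ring

end Pool.Agent.PWS
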