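import Pool.Agent.DPT.SDefs

/-!
Definitions for the statement of MP_30ac48_nt.PowerSaving.
-/

set_option autoImplicit false

open Finset

namespace Pool.Agent.PWS

open Pool.Agent.DPT (HasTorsion26)

open Classical in
/-- The Diophantine triples `a < b < c` with `c ≤ N`. -/
noncomputable def triples (N : ℕ) : Finset (ℕ × ℕ × ℕ) :=
  ((Icc 1 N) ×ˢ (Icc 1 N) ×ˢ (Icc 1 N)).filter fun t =>
    t.1 < t.2.1 ∧ t.2.1 < t.2.2 ∧ IsSquare (t.1 * t.2.1 + 1) ∧ IsSquare (t.1 * t.2.2 + 1) ∧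
      IsSquare (t.2.1 * t.2.2 + 1)

/-- The triple `{a, b, c}` is regular. -/
def Regular (a b c : ℕ) : Prop := ((c : ℤ) - a - b) ^ 2 = 4 * ((a : ℤ) * b + 1)

open Classical in
/-- The triples of `triples N` which are not regular. -/
noncomputable def irregular (N : ℕ) : Finset (ℕ × ℕ × ℕ) :=
  (triples N).filter fun t => ¬ Regular t.1 t.2.1 t.2.2

open Classical in
/-- The triples of `triples N` with torsion `ℤ/2 × ℤ/6`. -/
noncomputable def exceptional (N : ℕ) : Finset (ℕ × ℕ × ℕ) :=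
  (triples N).filter fun t => HasTorsion26 t.1 t.2.1 t.2.2

end Pool.Agent.PWS
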