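import Pool.Agent.PWS.KeyC
import Pool.Agent.PWS.NF

/-!
PWS-TriC. In case (B) one of the numbers `j`, `j + x`, `j + y` divides the cube of a small number.

PLAN. (The same as PWS/Tri.lean, with `keyC` instead of `key_ineq`.) `c = cc x y j = 4 j (j+x) (j+y)`. The numbers `j`, `j + x`, `j + y` are
pairwise coprime (`xy + 1 = j²`). `normal_form` (its `2p + q` is the `p` of `keyC`) for the triple `a < b < c`:
* `(a, b) = (x, y)`: `E = y - x` is coprime to `A = j + x` and to `B = j + y`, `C = j`; `E j² ≤ (j+y) j² ≤ N`.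
* `(a, b) = (x, z)`, `z = x + y + 2j`: `E = z - x = y + 2j` is coprime to `A = j` and to `B = j + y`, `C = j + x`;
  `E ≤ 2(j+y)` so `E j² ≤ N`.
* `(a, b) = (y, z)`: `E = z - y = x + 2j` is coprime to `A = j` and to `B = j + x`, `C = j + y`; `E ≤ 2(j+y)`.
-/

set_option autoImplicit false

namespace Pool.Agent.PWS

/-- coprimality from an explicit identity -/
private theorem TriC_cop {A B : ℕ} (u v : ℤ) (h : u * (A : ℤ) + v * (B : ℤ) = 1) : A.Coprime B :=
  Nat.isCoprime_iff_coprime.1 ⟨u, v, h⟩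

theorem triC {x y j N : ℕ} (hx : 0 < x) (hxy : x < y) (hj : x * y + 1 = j ^ 2)
    (hN : cc x y j ≤ N) (hB : BadE x y j) :
    ∃ w : ℕ, 0 < w ∧ w ^ 3 * j ≤ N ∧ (j ∣ w ^ 3 ∨ (j + x) ∣ w ^ 3 ∨ (j + y) ∣ w ^ 3) := by
  have hy : 0 < y := hx.trans hxy
  have hjZ : (x : ℤ) * y + 1 = (j : ℤ) ^ 2 := by exact_mod_cast hj
  have hj2 : 2 ≤ j := by
    by_contra hlt
    have h1 : j ≤ 1 := by omega
    have h2 : j ^ 2 ≤ 1 := by
      calc j ^ 2 ≤ 1 ^ 2 := Nat.pow_le_pow_left h1 2
        _ = 1 := by norm_num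
    have h3 : 1 ≤ x * y := Nat.mul_pos hx hy
    omega
  have hj0 : 0 < j := by omega
  have hA1 : 0 < j + x := by omega
  have hB1 : 0 < j + y := by omega
  have hzc : zz x y j < cc x y j := by
    unfold zz cc
    have h1 : 1 ≤ j * (j + x) * (j + y) := Nat.mul_pos (Nat.mul_pos hj0 hA1) hB1
    have h2 : (j + x) * (j + y) ≤ j * (j + x) * (j + y) := by
      rw [mul_assoc]
      exact Nat.le_mul_of_pos_left _ hj0
    have h3 : (j + x) + (j + y) ≤ (j + x) * (j + y) + 1 := by nlinarith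
    omega
  have hyz : y < zz x y j := by
    unfold zz
    omega
  have hcN : 4 * (j * (j + x) * (j + y)) ≤ N := hN
  have hEj : ∀ E : ℕ, E ≤ 4 * (j + x) ∨ E ≤ 4 * (j + y) → E * j ^ 2 ≤ N := by
    intro E hE
    refine le_trans ?_ hcN
    rcases hE with hE | hE
    · calc E * j ^ 2 ≤ 4 * (j + x) * j ^ 2 := Nat.mul_le_mul_right _ hE
        _ = 4 * (j * (j + x) * j) := by ring
        _ ≤ 4 * (j * (j + x) * (j + y)) :=
          Nat.mul_le_mul_left _ (Nat.mul_le_mul_left _ (Nat.le_add_right j y))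
    · calc E * j ^ 2 ≤ 4 * (j + y) * j ^ 2 := Nat.mul_le_mul_right _ hE
        _ = 4 * (j * j * (j + y)) := by ring
        _ ≤ 4 * (j * (j + x) * (j + y)) :=
          Nat.mul_le_mul_left _ (Nat.mul_le_mul_right _ (Nat.mul_le_mul_left _ (Nat.le_add_right j x)))
  have c12 : (j + x).Coprime (j + y) :=
    TriC_cop (j : ℤ) (-(x : ℤ)) (by push_cast; linear_combination -hjZ)
  have c01 : j.Coprime (j + x) :=
    TriC_cop ((j : ℤ) + y) (-(y : ℤ)) (by push_cast; linear_combination -hjZ)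
  have c02 : j.Coprime (j + y) :=
    TriC_cop ((j : ℤ) + x) (-(x : ℤ)) (by push_cast; linear_combination -hjZ)
  rcases hB with h | h | h
  · obtain ⟨p, q, m, hp, hq, hm, -, h2⟩ := normal_form hx hxy (hyz.trans hzc) h
    have hE : ((y - x : ℕ) : ℤ) = (y : ℤ) - x := by
      rw [Nat.cast_sub hxy.le]
    have cAE : (j + x).Coprime (y - x) :=
      TriC_cop ((j : ℤ) - x) (-(x : ℤ)) (by rw [hE]; push_cast; linear_combination -hjZ)
    have cBE : (j + y).Coprime (y - x) :=
      TriC_cop ((j : ℤ) - x) (-(j : ℤ)) (by rw [hE]; push_cast; linear_combination -hjZ)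
    have hk := keyC (A := j + x) (B := j + y) (C := j) (E := y - x) (m := m) (p := 2 * p + q) (q := q)
      (N := N) (j := j) hA1 hB1 hj0 (by omega) hq (by omega) c12 c01.symm cAE c02.symm cBE
      (by
        have h3 : 4 * ((j + x) * (j + y) * j * (y - x)) = cc x y j * (y - x) := by
          unfold cc
          ring
        rw [h3, h2])
      (by
        refine le_trans (le_of_eq ?_) hcN
        ring)
      (hEj _ (Or.inr (by omega)))
    obtain ⟨w, hw, hwN, hk | hk | hk⟩ := hk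
    · exact ⟨w, hw, hwN, Or.inr (Or.inl hk)⟩
    · exact ⟨w, hw, hwN, Or.inr (Or.inr hk)⟩
    · exact ⟨w, hw, hwN, Or.inl hk⟩
  · obtain ⟨p, q, m, hp, hq, hm, -, h2⟩ := normal_form hx (hxy.trans hyz) hzc h
    have hE : zz x y j - x = y + 2 * j := by
      unfold zz
      omega
    rw [hE] at h2
    have cAE : j.Coprime (y + 2 * j) :=
      TriC_cop ((j : ℤ) + 2 * x) (-(x : ℤ)) (by push_cast; linear_combination -hjZ)
    have cBE : (j + y).Coprime (y + 2 * j) :=
      TriC_cop (-((j : ℤ) + 2 * x)) ((j : ℤ) + x) (by push_cast; linear_combination -hjZ)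
    have hk := keyC (A := j) (B := j + y) (C := j + x) (E := y + 2 * j) (m := m) (p := 2 * p + q) (q := q)
      (N := N) (j := j) hj0 hB1 hA1 (by omega) hq (by omega) c02 c01 cAE c12.symm cBE
      (by
        have h3 : 4 * (j * (j + y) * (j + x) * (y + 2 * j)) = cc x y j * (y + 2 * j) := by
          unfold cc
          ring
        rw [h3, h2])
      (by
        refine le_trans (le_of_eq ?_) hcN
        ring)
      (hEj _ (Or.inr (by omega)))
    obtain ⟨w, hw, hwN, hk | hk | hk⟩ := hk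
    · exact ⟨w, hw, hwN, Or.inl hk⟩
    · exact ⟨w, hw, hwN, Or.inr (Or.inr hk)⟩
    · exact ⟨w, hw, hwN, Or.inr (Or.inl hk)⟩
  · obtain ⟨p, q, m, hp, hq, hm, -, h2⟩ := normal_form hy hyz hzc h
    have hE : zz x y j - y = x + 2 * j := by
      unfold zz
      omega
    rw [hE] at h2
    have cAE : j.Coprime (x + 2 * j) :=
      TriC_cop ((j : ℤ) + 2 * y) (-(y : ℤ)) (by push_cast; linear_combination -hjZ)
    have cBE : (j + x).Coprime (x + 2 * j) :=
      TriC_cop (-((j : ℤ) + 2 * y)) ((j : ℤ) + y) (by push_cast; linear_combination -hjZ)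
    have hk := keyC (A := j) (B := j + x) (C := j + y) (E := x + 2 * j) (m := m) (p := 2 * p + q) (q := q)
      (N := N) (j := j) hj0 hA1 hB1 (by omega) hq (by omega) c01 c02 cAE c12 cBE
      (by
        have h3 : 4 * (j * (j + x) * (j + y) * (x + 2 * j)) = cc x y j * (x + 2 * j) := by
          unfold cc
          ring
        rw [h3, h2])
      hcN (hEj _ (Or.inl (by omega)))
    obtain ⟨w, hw, hwN, hk | hk | hk⟩ := hk
    · exact ⟨w, hw, hwN, Or.inl hk⟩
    · exact ⟨w, hw, hwN, Or.inr (Or.inl hk)⟩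
    · exact ⟨w, hw, hwN, Or.inr (Or.inr hk)⟩

end Pool.Agent.PWS
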